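import Mathlib

/-!
Definitions for MP_30ddb3_co: the action on polynomials and polarization modules.
-/

namespace Pool.Agent.MP_30ddb3_co

open MvPolynomial

/-- The action of `𝔖ₙ × GL_l(ℂ)` on `ℂ[X]`: `(σ, m)` sends `x_{ij}` to `∑ₖ m_{ki} x_{k σ(j)}`. -/
noncomputable def rhoX (n l : ℕ) :
    Representation ℂ (Equiv.Perm (Fin n) × Matrix.GeneralLinearGroup (Fin l) ℂ)
      (MvPolynomial (Fin l × Fin n) ℂ) where
  toFun g := (aeval fun v : Fin l × Fin n => ∑ k, C (g.2 k v.1) * X (k, g.1 v.2)).toLinearMap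
  map_one' := by
    rw [Module.End.one_eq_id, ← AlgHom.toLinearMap_id]
    refine congrArg _ (algHom_ext fun v => ?_)
    simp [Matrix.one_apply, apply_ite C]
  map_mul' g h := by
    rw [Module.End.mul_eq_comp, ← AlgHom.comp_toLinearMap]
    refine congrArg _ (algHom_ext fun v => ?_)
    simp only [aeval_X, AlgHom.comp_apply, map_sum, map_mul, aeval_C, algebraMap_eq, Prod.snd_mul,
      Prod.fst_mul, Units.val_mul, Matrix.mul_apply, Equiv.Perm.mul_apply, Finset.sum_mul,
      Finset.mul_sum]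
    rw [Finset.sum_comm]
    exact Finset.sum_congr rfl fun _ _ => Finset.sum_congr rfl fun _ _ => by ring

/-- The polarization module of `f`: the smallest subspace containing all `σ · f` and closed under
the partial derivatives and the operators `E^{(p)}_{i,k} = ∑ⱼ x_{ij} ∂_{kj}^p`, `p ≥ 1`. -/
noncomputable def polModule {n l : ℕ} (f : MvPolynomial (Fin l × Fin n) ℂ) :
    Submodule ℂ (MvPolynomial (Fin l × Fin n) ℂ) :=
  sInf {W | (∀ σ : Equiv.Perm (Fin n), rename (Prod.map id σ) f ∈ W) ∧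
    (∀ v, ∀ g ∈ W, pderiv v g ∈ W) ∧
    ∀ (i k : Fin l) (p : ℕ), 1 ≤ p → ∀ g ∈ W, ∑ j, X (i, j) * (pderiv (k, j))^[p] g ∈ W}

end Pool.Agent.MP_30ddb3_co
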