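import Mathlib

/-!
Definitions for MP_30ddb3_co: the irreducible modules and the conjectured multiplicities.
-/

namespace Pool.Agent.MP_30ddb3_co

open MvPolynomial

/-- `𝔖ₙ × GL_l(ℂ)` acting on `ℂ[y_1, …, y_l]` through `GL_l`: `y_i ↦ ∑ₖ m_{ki} y_k`. -/
noncomputable def rhoY (n l : ℕ) :
    Representation ℂ (Equiv.Perm (Fin n) × Matrix.GeneralLinearGroup (Fin l) ℂ)
      (MvPolynomial (Fin l) ℂ) where
  toFun g := (aeval fun i : Fin l => ∑ k, C (g.2 k i) * X k).toLinearMap
  map_one' := by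
    rw [Module.End.one_eq_id, ← AlgHom.toLinearMap_id]
    refine congrArg _ (algHom_ext fun v => ?_)
    simp [Matrix.one_apply, apply_ite C]
  map_mul' g h := by
    rw [Module.End.mul_eq_comp, ← AlgHom.comp_toLinearMap]
    refine congrArg _ (algHom_ext fun v => ?_)
    simp only [aeval_X, AlgHom.comp_apply, map_sum, map_mul, aeval_C, algebraMap_eq, Prod.snd_mul,
      Units.val_mul, Matrix.mul_apply, Finset.sum_mul, Finset.mul_sum]
    rw [Finset.sum_comm]
    exact Finset.sum_congr rfl fun _ _ => Finset.sum_congr rfl fun _ _ => by ring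

/-- The irreducible polynomial `GL_l`-module `W_(j) = Sym^j(ℂ^l)`: forms of degree `j`. -/
noncomputable def weylRep (n l j : ℕ) :
    Representation ℂ (Equiv.Perm (Fin n) × Matrix.GeneralLinearGroup (Fin l) ℂ)
      (homogeneousSubmodule (Fin l) ℂ j) :=
  (rhoY n l).subrepresentation _ fun g p hp => by
    have h := IsHomogeneous.aeval (S := ℂ) hp (fun i : Fin l => ∑ k, C (g.2 k i) * X k)
      (fun i => IsHomogeneous.sum _ _ 1 fun k _ => isHomogeneous_C_mul_X _ k)
    rwa [one_mul] at h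

/-- `𝔖ₙ × GL_l(ℂ)` acting on `ℂ[x_1, …, x_n]` through `𝔖ₙ`. -/
noncomputable def rhoP (n l : ℕ) :
    Representation ℂ (Equiv.Perm (Fin n) × Matrix.GeneralLinearGroup (Fin l) ℂ)
      (MvPolynomial (Fin n) ℂ) where
  toFun g := (rename g.1).toLinearMap
  map_one' := LinearMap.ext fun p => by simp
  map_mul' g h := LinearMap.ext fun p => by simp [Equiv.Perm.coe_mul]

/-- The span of the Specht polynomials `∏ᵣ (x_{a r} - x_{b r})` of shape `(n - i, i)`. -/
noncomputable def specht (n i : ℕ) : Submodule ℂ (MvPolynomial (Fin n) ℂ) :=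
  Submodule.span ℂ {p | ∃ a b : Fin i → Fin n, Function.Injective (Sum.elim a b) ∧
    p = ∏ r, (X (a r) - X (b r))}

/-- The Specht module `S^{(n - i, i)}`. -/
noncomputable def spechtRep (n l i : ℕ) :
    Representation ℂ (Equiv.Perm (Fin n) × Matrix.GeneralLinearGroup (Fin l) ℂ)
      (specht n i) :=
  (rhoP n l).subrepresentation _ fun g => Submodule.span_le.mpr <| by
    rintro _ ⟨a, b, hab, rfl⟩
    refine Submodule.subset_span ⟨g.1 ∘ a, g.1 ∘ b, ?_, by simp [rhoP]⟩
    rw [← Sum.comp_elim]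
    exact g.1.injective.comp hab

/-- The direct sum over `0 ≤ i, j ≤ d` of `b i j` copies of `W_(j) ⊗ S^{(n - i, i)}`. -/
noncomputable def modelRep (n l d : ℕ) (b : ℕ → ℕ → ℕ) :=
  Representation.directSum
    fun x : (Sigma fun ij : Fin (d + 1) × Fin (d + 1) => Fin (b ij.1 ij.2)) =>
      (weylRep n l x.1.2).tprod (spechtRep n l x.1.1)

/-- The coefficient of `s_j(q) s_{n-i,i}(w)` in the conjectured formula. -/
def mult (d i j : ℕ) : ℕ :=
  if i = 0 then (if j ≤ 1 then 1 else if j ≤ d - 1 then 2 else if j = d then 1 else 0)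
  else if i ≤ d / 2 - 1 then
    (if j = i then 1 else if i + 1 ≤ j ∧ j ≤ d - i - 1 then 2 else if j = d - i then 1 else 0)
  else if i = d / 2 then (if i ≤ j ∧ j ≤ d - i then 1 else 0)
  else 0

end Pool.Agent.MP_30ddb3_co
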