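import Mathlib
import Pool.Agent.MP_30ddb3_co.Defs
import Pool.Agent.MP_30ddb3_co.Model

/-!
Polarization of one-row polynomials and the description of polarization modules as spans of
polarized polynomials.
-/

namespace Pool.Agent.MP_30ddb3_co

open MvPolynomial

variable {n l : ℕ}

/-- One-row polynomials. -/
abbrev PP (n : ℕ) := MvPolynomial (Fin n) ℂ
/-- Polynomials in the matrix of variables. -/
abbrev RR (n l : ℕ) := MvPolynomial (Fin l × Fin n) ℂ
/-- Polynomials in `l` variables. -/
abbrev YY (l : ℕ) := MvPolynomial (Fin l) ℂ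

/-- The substitution `x_j ↦ ∑ₖ a_k x_{kj}` with indeterminate `a`. -/
noncomputable def Phi (n l : ℕ) : PP n →ₐ[ℂ] MvPolynomial (Fin l) (RR n l) :=
  aeval fun j => ∑ k, C (X (k, j)) * X k

lemma Phi_X (j : Fin n) : Phi n l (X j) = ∑ k, C (X (k, j)) * X k := by simp [Phi]

lemma Phi_C (c : ℂ) : Phi n l (C c) = C (C c) := by
  simp [Phi, MvPolynomial.algebraMap_apply]

/-- The polarization of multidegree `α`. -/
noncomputable def pol (n : ℕ) (α : Fin l →₀ ℕ) : PP n →ₗ[ℂ] RR n l where
  toFun u := coeff α (Phi n l u)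
  map_add' u v := by simp
  map_smul' c u := by simp

lemma pol_apply (α : Fin l →₀ ℕ) (u : PP n) : pol n α u = coeff α (Phi n l u) := rfl

lemma pderiv_Phi (i : Fin l) (v : PP n) :
    pderiv i (Phi n l v) = ∑ j, C (X (i, j)) * Phi n l (pderiv j v) := by
  induction v using MvPolynomial.induction_on with
  | C a => simp
  | add p q hp hq => simp [hp, hq, mul_add, Finset.sum_add_distrib]
  | mul_X p j h =>
    have h1 : pderiv i (Phi n l (X j)) = C (X (i, j)) := by
      rw [Phi_X, map_sum, Finset.sum_eq_single i]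
      · simp
      · intro b _ hb
        simp [pderiv_X_of_ne hb]
      · simp
    rw [map_mul, pderiv_mul, h, h1]
    simp only [pderiv_mul, map_add, map_mul, mul_add, Finset.sum_add_distrib, Finset.sum_mul]
    refine congrArg₂ (· + ·) ?_ ?_
    · exact Finset.sum_congr rfl fun _ _ => by ring
    · rw [Finset.sum_eq_single j]
      · simp [mul_comm]
      · intro b _ hb
        simp [pderiv_X_of_ne hb.symm]
      · simp

/-- Key identity for the polarization operators. -/
lemma sum_X_mul_pol (i : Fin l) (β : Fin l →₀ ℕ) (v : PP n) :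
    ∑ j, X (i, j) * pol n β (pderiv j v)
      = ((β i + 1 : ℕ) : ℂ) • pol n (β + Finsupp.single i 1) v := by
  have h := congrArg (coeff β) (pderiv_Phi (l := l) i v)
  rw [coeff_pderiv, coeff_sum] at h
  simp only [coeff_C_mul] at h
  simp only [pol_apply]
  rw [← h, Nat.cast_smul_eq_nsmul, nsmul_eq_mul, mul_comm]
  push_cast
  rfl

/-- `F'` is obtained from `F` by applying the derivation `D` to every coefficient. -/
def CW (D : Derivation ℂ (RR n l) (RR n l)) (F F' : MvPolynomial (Fin l) (RR n l)) : Prop :=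
  ∀ β, D (coeff β F) = coeff β F'

lemma CW.add {D : Derivation ℂ (RR n l) (RR n l)} {F F' G G'} (h : CW D F F') (h' : CW D G G') :
    CW D (F + G) (F' + G') := fun β => by simp [h β, h' β]

lemma CW.mul {D : Derivation ℂ (RR n l) (RR n l)} {F F' G G'} (h : CW D F F') (h' : CW D G G') :
    CW D (F * G) (F' * G + F * G') := fun β => by
  simp only [coeff_add, coeff_mul, map_sum, Derivation.leibniz, smul_eq_mul, h _, h' _,
    ← Finset.sum_add_distrib]
  exact Finset.sum_congr rfl fun _ _ => by ring

lemma CW.C (D : Derivation ℂ (RR n l) (RR n l)) (r : RR n l) : CW D (C r) (C (D r)) := fun β => by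
  simp only [coeff_C]
  split_ifs <;> simp

lemma CW.X (D : Derivation ℂ (RR n l) (RR n l)) (k : Fin l) : CW D (X k) 0 := fun β => by
  simp only [coeff_X, coeff_zero]
  split_ifs <;> simp

lemma CW.sum {D : Derivation ℂ (RR n l) (RR n l)} {ι : Type*} (s : Finset ι) {F F' : ι → _}
    (h : ∀ i, CW D (F i) (F' i)) : CW D (∑ i ∈ s, F i) (∑ i ∈ s, F' i) := fun β => by
  simp only [coeff_sum, map_sum, h _ β]

lemma cw_Phi (k : Fin l) (j : Fin n) (u : PP n) :
    CW (pderiv (k, j)) (Phi n l u) (X k * Phi n l (pderiv j u)) := by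
  induction u using MvPolynomial.induction_on with
  | C a => simpa [Phi_C] using CW.C (pderiv (k, j)) (C a : RR n l)
  | add p q hp hq => simpa [mul_add] using hp.add hq
  | mul_X p j' h =>
    have h1 : CW (pderiv (k, j)) (Phi n l (X j')) (X k * Phi n l (pderiv j (X j'))) := by
      rw [Phi_X]
      have h2 := CW.sum (D := pderiv (k, j)) Finset.univ
        (fun k' : Fin l => (CW.C (pderiv (k, j)) (X (k', j') : RR n l)).mul (CW.X _ k'))
      convert h2 using 1
      rw [Finset.sum_eq_single k]
      · by_cases hj : j' = j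
        · subst hj; simp
        · have : (k, j') ≠ (k, j) := by simpa using hj
          simp [pderiv_X_of_ne hj, pderiv_X_of_ne this]
      · intro b _ hb
        have : (b, j') ≠ (k, j) := by simp [hb]
        simp [pderiv_X_of_ne this]
      · simp
    have h3 := h.mul h1
    rw [map_mul, pderiv_mul, map_add, map_mul, map_mul]
    convert h3 using 1
    ring

lemma pderiv_pol_add (k : Fin l) (j : Fin n) (β : Fin l →₀ ℕ) (u : PP n) :
    pderiv (k, j) (pol n (β + Finsupp.single k 1) u) = pol n β (pderiv j u) := by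
  rw [pol_apply, cw_Phi k j u, add_comm, coeff_X_mul, pol_apply]

lemma pderiv_pol_zero (k : Fin l) (j : Fin n) (α : Fin l →₀ ℕ) (h : α k = 0) (u : PP n) :
    pderiv (k, j) (pol n α u) = 0 := by
  rw [pol_apply, cw_Phi k j u, coeff_X_mul', if_neg (by simpa using h)]

lemma exists_eq_add_single (k : Fin l) (α : Fin l →₀ ℕ) (h : α k ≠ 0) :
    ∃ β, α = β + Finsupp.single k 1 :=
  ⟨α - Finsupp.single k 1, (tsub_add_cancel_of_le (by
    rw [Finsupp.single_le_iff]; omega)).symm⟩

lemma iterate_pderiv_pol (k : Fin l) (p : ℕ) (α : Fin l →₀ ℕ) :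
    (∃ β : Fin l →₀ ℕ, ∀ (j : Fin n) (u : PP n),
      (pderiv (k, j))^[p] (pol n α u) = pol n β ((pderiv j)^[p] u)) ∨
    (∀ (j : Fin n) (u : PP n), (pderiv (k, j))^[p] (pol n α u) = 0) := by
  induction p with
  | zero => exact Or.inl ⟨α, fun _ _ => rfl⟩
  | succ p ih =>
    rcases ih with ⟨β, hβ⟩ | h0
    · by_cases hk : β k = 0
      · right
        intro j u
        rw [Function.iterate_succ_apply', hβ, pderiv_pol_zero k j β hk]
      · obtain ⟨γ, rfl⟩ := exists_eq_add_single k β hk
        left
        refine ⟨γ, fun j u => ?_⟩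
        rw [Function.iterate_succ_apply', hβ, pderiv_pol_add, Function.iterate_succ_apply']
    · right
      intro j u
      rw [Function.iterate_succ_apply', h0, map_zero]

/-- The span of all polarizations of elements of `U`. -/
noncomputable def polSpan (l : ℕ) (U : Submodule ℂ (PP n)) : Submodule ℂ (RR n l) :=
  ⨆ α : Fin l →₀ ℕ, U.map (pol n α)

lemma pol_mem_polSpan {U : Submodule ℂ (PP n)} (α : Fin l →₀ ℕ) {u : PP n} (hu : u ∈ U) :
    pol n α u ∈ polSpan l U :=
  Submodule.mem_iSup_of_mem α (Submodule.mem_map_of_mem hu)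

lemma polSpan_le {U : Submodule ℂ (PP n)} {W : Submodule ℂ (RR n l)}
    (h : ∀ α, ∀ u ∈ U, pol n α u ∈ W) : polSpan l U ≤ W :=
  iSup_le fun α => Submodule.map_le_iff_le_comap.mpr fun u hu => h α u hu

lemma Phi_isHomogeneous {u : PP n} {j : ℕ} (hu : u.IsHomogeneous j) :
    (Phi n l u).IsHomogeneous j := by
  have h := IsHomogeneous.aeval (S := RR n l) hu
    (fun j : Fin n => ∑ k : Fin l, C (X (k, j) : RR n l) * X k)
    (fun i => IsHomogeneous.sum _ _ 1 fun k _ => isHomogeneous_C_mul_X _ k)
  rwa [one_mul] at h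

lemma pol_eq_zero_of_degree_ne {u : PP n} {j : ℕ} (hu : u.IsHomogeneous j) {α : Fin l →₀ ℕ}
    (hα : α.degree ≠ j) : pol n α u = 0 :=
  (Phi_isHomogeneous hu).coeff_eq_zero hα

/-- If all coefficients of `F` lie in `W`, so do those of a substitution with complex
polynomials. -/
lemma coeff_bind_mem {τ : Type*} {W : Submodule ℂ (RR n l)} {F : MvPolynomial (Fin l) (RR n l)}
    (hF : ∀ α, coeff α F ∈ W) (q : Fin l → MvPolynomial τ ℂ) (β : τ →₀ ℕ) :
    coeff β (aeval (fun k => MvPolynomial.map (algebraMap ℂ (RR n l)) (q k)) F) ∈ W := by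
  rw [F.as_sum, map_sum, coeff_sum]
  refine W.sum_mem fun α _ => ?_
  rw [aeval_monomial, algebraMap_eq, coeff_C_mul]
  have : (α.prod fun i e => MvPolynomial.map (algebraMap ℂ (RR n l)) (q i) ^ e)
      = MvPolynomial.map (algebraMap ℂ (RR n l)) (α.prod fun i e => q i ^ e) := by
    simp [Finsupp.prod, map_prod]
  rw [this, coeff_map, mul_comm, ← Algebra.smul_def]
  exact W.smul_mem _ (hF α)

lemma rename_row_eq [NeZero l] (u : PP n) :
    (rename (fun j => ((0 : Fin l), j)) u : RR n l)
      = coeff (0 : Empty →₀ ℕ) (aeval (fun k => MvPolynomial.map (algebraMap ℂ (RR n l))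
        (if k = 0 then (1 : MvPolynomial Empty ℂ) else 0)) (Phi n l u)) := by
  have h : ((aeval (fun k => MvPolynomial.map (algebraMap ℂ (RR n l))
        (if k = 0 then (1 : MvPolynomial Empty ℂ) else 0))).restrictScalars ℂ).comp (Phi n l)
      = (IsScalarTower.toAlgHom ℂ (RR n l) (MvPolynomial Empty (RR n l))).comp
        (rename (fun j => ((0 : Fin l), j))) := by
    ext1 j
    simp only [AlgHom.comp_apply, Phi_X, AlgHom.coe_restrictScalars', map_sum, map_mul, aeval_C,
      aeval_X, rename_X, IsScalarTower.coe_toAlgHom']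
    rw [Finset.sum_eq_single 0]
    · simp
    · intro b _ hb
      simp [hb]
    · simp
  have h2 := AlgHom.congr_fun h u
  simp only [AlgHom.comp_apply, AlgHom.coe_restrictScalars', IsScalarTower.coe_toAlgHom'] at h2
  rw [h2, algebraMap_eq, coeff_zero_C]

lemma rename_row_mem [NeZero l] {U : Submodule ℂ (PP n)} {u : PP n} (hu : u ∈ U) :
    (rename (fun j => ((0 : Fin l), j)) u : RR n l) ∈ polSpan l U := by
  rw [rename_row_eq]
  exact coeff_bind_mem (fun α => pol_mem_polSpan α hu) _ _

lemma rhoX_apply (g : Equiv.Perm (Fin n) × GL (Fin l) ℂ) (p : RR n l) :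
    rhoX n l g p = aeval (fun v : Fin l × Fin n =>
      (∑ k, C (g.2 k v.1) * X (k, g.1 v.2) : RR n l)) p := rfl

lemma rhoX_pol (g : Equiv.Perm (Fin n) × GL (Fin l) ℂ) (α : Fin l →₀ ℕ) (u : PP n) :
    rhoX n l g (pol n α u) = coeff α (aeval (fun k => MvPolynomial.map (algebraMap ℂ (RR n l))
        (∑ i, C (g.2 k i) * X i : YY l)) (Phi n l (rename g.1 u))) := by
  set φ : RR n l →ₐ[ℂ] RR n l := aeval (fun v : Fin l × Fin n =>
      (∑ k, C (g.2 k v.1) * X (k, g.1 v.2) : RR n l)) with hφ
  have h : (mapAlgHom φ).comp (Phi n l)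
      = (((aeval (fun k => MvPolynomial.map (algebraMap ℂ (RR n l))
        (∑ i, C (g.2 k i) * X i : YY l))).restrictScalars ℂ).comp (Phi n l)).comp
          (rename g.1) := by
    ext1 j
    simp only [AlgHom.comp_apply, Phi_X, AlgHom.coe_restrictScalars', map_sum, map_mul, aeval_C,
      aeval_X, rename_X, mapAlgHom_apply, map_C, map_X, hφ, RingHom.coe_coe, algebraMap_eq,
      Finset.sum_mul, Finset.mul_sum]
    rw [Finset.sum_comm]
    exact Finset.sum_congr rfl fun _ _ => Finset.sum_congr rfl fun _ _ => by ring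
  have h2 := AlgHom.congr_fun h u
  simp only [AlgHom.comp_apply, AlgHom.coe_restrictScalars', mapAlgHom_apply] at h2
  rw [← h2, coeff_map, rhoX_apply, pol_apply]
  rfl

lemma polSpan_stable {U : Submodule ℂ (PP n)}
    (hU : ∀ σ : Equiv.Perm (Fin n), ∀ u ∈ U, rename σ u ∈ U)
    (g : Equiv.Perm (Fin n) × GL (Fin l) ℂ) : polSpan l U ≤ (polSpan l U).comap (rhoX n l g) := by
  refine polSpan_le fun α u hu => ?_
  rw [Submodule.mem_comap, rhoX_pol]
  exact coeff_bind_mem (fun α => pol_mem_polSpan α (hU _ _ hu)) _ _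

lemma polModule_le_polSpan [NeZero l] {U : Submodule ℂ (PP n)} {f : PP n} (hf : f ∈ U)
    (hU : ∀ σ : Equiv.Perm (Fin n), ∀ u ∈ U, rename σ u ∈ U)
    (hd : ∀ j, ∀ u ∈ U, pderiv j u ∈ U)
    (hp : ∀ p, 1 ≤ p → ∀ u ∈ U, ∃ v ∈ U, ∀ j, (pderiv j)^[p] u = pderiv j v) :
    polModule (rename (fun j => ((0 : Fin l), j)) f) ≤ polSpan l U := by
  refine sInf_le ⟨fun σ => ?_, ?_, ?_⟩
  · have : (rename (Prod.map id σ) (rename (fun j => ((0 : Fin l), j)) f) : RR n l)
        = rename (fun j => ((0 : Fin l), j)) (rename σ f) := by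
      simp only [rename_rename]; rfl
    rw [this]
    exact rename_row_mem (hU σ f hf)
  · rintro ⟨k, j⟩
    change polSpan l U ≤ (polSpan l U).comap (pderiv (k, j)).toLinearMap
    refine polSpan_le fun α u hu => ?_
    change pderiv (k, j) (pol n α u) ∈ polSpan l U
    by_cases hk : α k = 0
    · rw [pderiv_pol_zero k j α hk]; exact Submodule.zero_mem _
    · obtain ⟨β, rfl⟩ := exists_eq_add_single k α hk
      rw [pderiv_pol_add]
      exact pol_mem_polSpan _ (hd j u hu)
  · intro i k p hp1
    let E : RR n l →ₗ[ℂ] RR n l :=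
      ∑ j, (LinearMap.mulLeft ℂ (X (i, j))).comp ((pderiv (k, j)).toLinearMap ^ p)
    have hE : ∀ g, E g = ∑ j, X (i, j) * (pderiv (k, j))^[p] g := by
      intro g
      simp [E, LinearMap.sum_apply, Module.End.pow_apply]
    simp only [← hE]
    change polSpan l U ≤ (polSpan l U).comap E
    refine polSpan_le fun α u hu => ?_
    rw [Submodule.mem_comap, hE]
    rcases iterate_pderiv_pol (n := n) k p α with ⟨β, hβ⟩ | h0
    · obtain ⟨v, hv, hvu⟩ := hp p hp1 u hu
      simp only [hβ, hvu, sum_X_mul_pol]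
      exact Submodule.smul_mem _ _ (pol_mem_polSpan _ hv)
    · simp [h0]

section reverse

variable (F : RR n l)

lemma polModule_pderiv (v : Fin l × Fin n) {g : RR n l} (hg : g ∈ polModule F) :
    pderiv v g ∈ polModule F :=
  Submodule.mem_sInf.mpr fun W hW => hW.2.1 v g (Submodule.mem_sInf.mp hg W hW)

lemma polModule_polOp (i k : Fin l) (p : ℕ) (hp : 1 ≤ p) {g : RR n l} (hg : g ∈ polModule F) :
    ∑ j, X (i, j) * (pderiv (k, j))^[p] g ∈ polModule F :=
  Submodule.mem_sInf.mpr fun W hW => hW.2.2 i k p hp g (Submodule.mem_sInf.mp hg W hW)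

lemma self_mem_polModule : F ∈ polModule F :=
  Submodule.mem_sInf.mpr fun W hW => by
    have := hW.1 1
    simpa using this

/-- One-row polynomials all of whose polarizations lie in the polarization module. -/
noncomputable def polCore : Submodule ℂ (PP n) :=
  ⨅ α : Fin l →₀ ℕ, (polModule F).comap (pol n α)

lemma mem_polCore {u : PP n} : u ∈ polCore F ↔ ∀ α, pol n α u ∈ polModule F := by
  simp [polCore]

lemma polCore_pderiv [NeZero l] (j : Fin n) {u : PP n} (hu : u ∈ polCore F) : pderiv j u ∈ polCore F := by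
  rw [mem_polCore] at hu ⊢
  intro α
  rw [← pderiv_pol_add 0]
  exact polModule_pderiv F _ (hu _)

lemma polCore_sq [NeZero l] {u v : PP n} (hu : u ∈ polCore F) (huv : ∀ j, (pderiv j)^[2] u = pderiv j v)
    {m : ℕ} (hm : m ≠ 0) (hv : v.IsHomogeneous m) : v ∈ polCore F := by
  rw [mem_polCore] at hu ⊢
  intro α
  by_cases hα : α = 0
  · rw [pol_eq_zero_of_degree_ne hv (by simpa [hα] using hm.symm)]
    exact Submodule.zero_mem _
  · obtain ⟨i, hi⟩ : ∃ i, α i ≠ 0 := by
      by_contra h
      push Not at h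
      exact hα (Finsupp.ext h)
    obtain ⟨β, rfl⟩ := exists_eq_add_single i α hi
    have h1 := polModule_polOp F i 0 2 (by norm_num)
      (hu (β + Finsupp.single 0 1 + Finsupp.single 0 1))
    simp only [Function.iterate_succ_apply', Function.iterate_zero_apply, pderiv_pol_add] at h1 huv
    simp only [huv, sum_X_mul_pol] at h1
    exact (Submodule.smul_mem_iff _ (Nat.cast_ne_zero.mpr (Nat.succ_ne_zero _))).mp h1

lemma pol_single_eq [NeZero l] {u : PP n} {d : ℕ} (hu : u.IsHomogeneous d) :
    pol n (Finsupp.single (0 : Fin l) d) u = rename (fun j => ((0 : Fin l), j)) u := by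
  rw [rename_row_eq, (Phi n l u).as_sum, map_sum, coeff_sum,
    Finset.sum_eq_single (Finsupp.single (0 : Fin l) d)]
  · rw [aeval_monomial, Finsupp.prod_single_index (by simp)]
    simp [pol_apply]
  · intro α hα hne
    have hdeg : α.degree = d := by
      by_contra h
      exact (mem_support_iff.mp hα) ((Phi_isHomogeneous hu).coeff_eq_zero h)
    obtain ⟨k, hk0, hk⟩ : ∃ k, k ≠ 0 ∧ α k ≠ 0 := by
      by_contra h
      push Not at h
      apply hne
      have h1 : α = Finsupp.single 0 (α 0) := by
        ext k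
        by_cases hk : k = 0
        · simp [hk]
        · simp [h k hk, Ne.symm hk]
      rw [h1] at hdeg
      rw [h1, ← hdeg]
      simp
    rw [aeval_monomial, Finsupp.prod, Finset.prod_eq_zero (Finsupp.mem_support_iff.mpr hk)]
    · simp
    · simp [hk0, hk]
  · intro h
    rw [notMem_support_iff.mp h]
    simp

lemma self_mem_polCore [NeZero l] {u : PP n} {d : ℕ} (hu : u.IsHomogeneous d) :
    u ∈ polCore (rename (fun j => ((0 : Fin l), j)) u : RR n l) := by
  rw [mem_polCore]
  set F : RR n l := rename (fun j => ((0 : Fin l), j)) u with hF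
  have key : ∀ (t : ℕ) (α : Fin l →₀ ℕ), α.degree = d → α 0 + t = d → pol n α u ∈ polModule F := by
    intro t
    induction t with
    | zero =>
      intro α hα h0
      have : α = Finsupp.single 0 d := by
        have h1 : α = α.erase 0 + Finsupp.single 0 (α 0) := (Finsupp.erase_add_single 0 α).symm
        have h2 : (α.erase 0).degree = 0 := by
          have := congrArg Finsupp.degree h1
          rw [map_add, Finsupp.degree_single] at this
          omega
        rw [Finsupp.degree_eq_zero_iff] at h2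
        rw [h1, h2, zero_add, ← h0, add_zero]
      rw [this, pol_single_eq hu]
      exact self_mem_polModule F
    | succ t ih =>
      intro α hα h0
      obtain ⟨i, hi0, hi⟩ : ∃ k, k ≠ 0 ∧ α k ≠ 0 := by
        by_contra h
        push Not at h
        have h1 : α = Finsupp.single 0 (α 0) := by
          ext k
          by_cases hk : k = 0
          · simp [hk]
          · simp [h k hk, Ne.symm hk]
        have := congrArg Finsupp.degree h1
        rw [Finsupp.degree_single] at this
        omega
      obtain ⟨β, rfl⟩ := exists_eq_add_single i α hi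
      have h1 := ih (β + Finsupp.single 0 1) (by simpa using hα) (by
        simp [hi0] at h0 ⊢
        omega)
      have h2 := polModule_polOp F i 0 1 le_rfl h1
      simp only [Function.iterate_one, pderiv_pol_add, sum_X_mul_pol] at h2
      exact (Submodule.smul_mem_iff _ (Nat.cast_ne_zero.mpr (Nat.succ_ne_zero _))).mp h2
  intro α
  by_cases hα : α.degree = d
  · have : α 0 ≤ d := hα ▸ Finsupp.le_degree 0 α
    exact key (d - α 0) α hα (by omega)
  · rw [pol_eq_zero_of_degree_ne hu hα]
    exact Submodule.zero_mem _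

lemma polSpan_le_polModule {U : Submodule ℂ (PP n)} (h : U ≤ polCore F) :
    polSpan l U ≤ polModule F :=
  polSpan_le fun α _ hu => (mem_polCore F).mp (h hu) α

end reverse

end Pool.Agent.MP_30ddb3_co
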