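import Mathlib
import Pool.Agent.MP_30ddb3_co.Polar

/-!
From a decomposition of a one-row module into Specht modules to the decomposition of the span of
its polarizations.
-/

namespace Pool.Agent.MP_30ddb3_co

open MvPolynomial TensorProduct DirectSum

variable {n l : ℕ}

/-- The tensor product of the two polynomial rings. -/
abbrev BB (n l : ℕ) := YY l ⊗[ℂ] PP n

/-- The specialization `x_{kj} ↦ y_k ⊗ x_j`. -/
noncomputable def spec (n l : ℕ) : RR n l →ₐ[ℂ] BB n l :=
  aeval fun v => (X v.1 : YY l) ⊗ₜ[ℂ] (X v.2 : PP n)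

lemma spec_rhoX (g : Equiv.Perm (Fin n) × GL (Fin l) ℂ) (p : RR n l) :
    spec n l (rhoX n l g p) = TensorProduct.map (rhoY n l g) (rhoP n l g) (spec n l p) := by
  have h : (spec n l).comp (aeval (fun v : Fin l × Fin n =>
      (∑ k, C (g.2 k v.1) * X (k, g.1 v.2) : RR n l)))
      = (Algebra.TensorProduct.map
          (aeval fun i : Fin l => (∑ k, C (g.2 k i) * X k : YY l)) (rename g.1)).comp
        (spec n l) := by
    refine algHom_ext fun v => ?_
    simp only [AlgHom.comp_apply, aeval_X, spec, map_sum, Algebra.TensorProduct.map_tmul, rename_X,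
      sum_tmul, C_mul', map_smul, smul_tmul']
  exact AlgHom.congr_fun h p

lemma aeval_mul_of_isHomogeneous {A : Type*} [CommRing A] [Algebra ℂ A] (c : A) (v : Fin n → A)
    {u : PP n} {j : ℕ} (hu : u.IsHomogeneous j) :
    aeval (fun i => c * v i) u = c ^ j * aeval v u := by
  rw [u.as_sum, map_sum, map_sum, Finset.mul_sum]
  refine Finset.sum_congr rfl fun α hα => ?_
  have hd : α.degree = j := by
    by_contra h
    exact (mem_support_iff.mp hα) (hu.coeff_eq_zero h)
  rw [aeval_monomial, aeval_monomial, ← hd, Finsupp.degree_apply]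
  simp only [Finsupp.prod, mul_pow, Finset.prod_mul_distrib, Finset.prod_pow_eq_pow_sum]
  ring

lemma spec_pol {u : PP n} {j : ℕ} (hu : u.IsHomogeneous j) {α : Fin l →₀ ℕ} (hα : α.degree = j) :
    spec n l (pol n α u) = (α.multinomial : ℂ) • ((monomial α 1 : YY l) ⊗ₜ[ℂ] u) := by
  set Λ : MvPolynomial (Fin l) (BB n l) := ∑ k, ((X k : YY l) ⊗ₜ[ℂ] (1 : PP n) : (BB n l)) • X k with hΛ
  have h : (mapAlgHom (spec n l)).comp (Phi n l)
      = aeval (fun i => Λ * C ((1 : YY l) ⊗ₜ[ℂ] (X i : PP n) : (BB n l))) := by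
    refine algHom_ext fun i => ?_
    simp only [AlgHom.comp_apply, Phi_X, map_sum, map_mul, mapAlgHom_apply, map_C, map_X, aeval_X,
      hΛ, Finset.sum_mul, RingHom.coe_coe, spec, smul_eq_C_mul]
    refine Finset.sum_congr rfl fun k _ => ?_
    rw [mul_right_comm, ← map_mul, Algebra.TensorProduct.tmul_mul_tmul, mul_one, one_mul]
  have h2 : aeval (fun i => (C ((1 : YY l) ⊗ₜ[ℂ] (X i : PP n) : (BB n l)) : MvPolynomial (Fin l) (BB n l))) u
      = C ((1 : YY l) ⊗ₜ[ℂ] u : (BB n l)) := by
    have : aeval (fun i => (C ((1 : YY l) ⊗ₜ[ℂ] (X i : PP n) : (BB n l)) : MvPolynomial (Fin l) (BB n l)))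
        = (IsScalarTower.toAlgHom ℂ (BB n l) (MvPolynomial (Fin l) (BB n l))).comp
          Algebra.TensorProduct.includeRight := by
      refine algHom_ext fun i => ?_
      simp
    rw [this]
    simp
  have h3 := AlgHom.congr_fun h u
  rw [aeval_mul_of_isHomogeneous Λ _ hu, h2, AlgHom.comp_apply, mapAlgHom_apply] at h3
  have h4 := congrArg (coeff α) h3
  rw [coeff_map, mul_comm, coeff_C_mul, hΛ, coeff_linearCombination_X_pow_of_fintype,
    if_pos (by rw [← hα]; rfl)] at h4
  have h5 : (α.prod fun r m => ((X r : YY l) ⊗ₜ[ℂ] (1 : PP n) : (BB n l)) ^ m)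
      = (monomial α 1 : YY l) ⊗ₜ[ℂ] (1 : PP n) := by
    have : ((monomial α 1 : YY l) ⊗ₜ[ℂ] (1 : PP n) : (BB n l))
        = (Algebra.TensorProduct.includeLeft : YY l →ₐ[ℂ] (BB n l)) (monomial α 1) := rfl
    rw [this, monomial_eq, C_1, one_mul, Finsupp.prod, Finsupp.prod, map_prod]
    simp
  rw [h5] at h4
  rw [pol_apply]
  refine h4.trans ?_
  rw [mul_left_comm, Algebra.TensorProduct.tmul_mul_tmul, one_mul, mul_one,
    Nat.cast_smul_eq_nsmul, nsmul_eq_mul]

lemma multinomial_ne_zero (α : Fin l →₀ ℕ) : (α.multinomial : ℂ) ≠ 0 := by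
  rw [Finsupp.multinomial_eq]
  exact Nat.cast_ne_zero.mpr (Nat.multinomial_pos _ _).ne'

/-- Full polarization, a section of the specialization map. -/
noncomputable def polTensor (n l : ℕ) : YY l ⊗[ℂ] PP n →ₗ[ℂ] RR n l :=
  TensorProduct.lift ((basisMonomials (Fin l) ℂ).constr ℂ
    fun α => (α.multinomial : ℂ)⁻¹ • pol n α)

lemma polTensor_monomial (α : Fin l →₀ ℕ) (u : PP n) :
    polTensor n l ((monomial α 1 : YY l) ⊗ₜ[ℂ] u) = (α.multinomial : ℂ)⁻¹ • pol n α u := by
  have : (monomial α 1 : YY l) = basisMonomials (Fin l) ℂ α := rfl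
  rw [polTensor, lift.tmul, this, Module.Basis.constr_basis, LinearMap.smul_apply]

lemma as_sum_smul (h : YY l) : h = ∑ α ∈ h.support, coeff α h • (monomial α 1 : YY l) := by
  conv_lhs => rw [h.as_sum]
  exact Finset.sum_congr rfl fun α _ => by rw [smul_monomial, smul_eq_mul, mul_one]

lemma spec_polTensor {h : YY l} {u : PP n} {j : ℕ} (hh : h.IsHomogeneous j)
    (hu : u.IsHomogeneous j) : spec n l (polTensor n l (h ⊗ₜ[ℂ] u)) = h ⊗ₜ[ℂ] u := by
  rw [as_sum_smul h, sum_tmul, map_sum, map_sum]
  refine Finset.sum_congr rfl fun α hα => ?_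
  have hd : α.degree = j := by
    by_contra h'
    exact (mem_support_iff.mp hα) (hh.coeff_eq_zero h')
  rw [← smul_tmul', map_smul, map_smul, polTensor_monomial, map_smul, spec_pol hu hd, smul_smul,
    smul_smul, mul_assoc, inv_mul_cancel₀ (multinomial_ne_zero α), mul_one]

lemma polTensor_mem {U : Submodule ℂ (PP n)} (h : YY l) {u : PP n} (hu : u ∈ U) :
    polTensor n l (h ⊗ₜ[ℂ] u) ∈ polSpan l U := by
  rw [as_sum_smul h, sum_tmul, map_sum]
  refine Submodule.sum_mem _ fun α _ => ?_
  rw [← smul_tmul', map_smul, polTensor_monomial]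
  exact Submodule.smul_mem _ _ (Submodule.smul_mem _ _ (pol_mem_polSpan α hu))

section model

variable {ι : Type*} [Fintype ι] [DecidableEq ι] (I J : ι → ℕ) (ψ : ι → PP n →ₗ[ℂ] PP n)

/-- The embedding of the model into `ℂ[y] ⊗ ℂ[x]`. -/
noncomputable def theta (l : ℕ) :
    (⨁ x : ι, homogeneousSubmodule (Fin l) ℂ (J x) ⊗[ℂ] specht n (I x)) →ₗ[ℂ] YY l ⊗[ℂ] PP n :=
  DirectSum.toModule ℂ ι _ fun x =>
    TensorProduct.map (homogeneousSubmodule (Fin l) ℂ (J x)).subtype
      ((ψ x).comp (specht n (I x)).subtype)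

lemma theta_eq_sum (z : ⨁ x : ι, homogeneousSubmodule (Fin l) ℂ (J x) ⊗[ℂ] specht n (I x)) :
    theta I J ψ l z = ∑ x, TensorProduct.map (homogeneousSubmodule (Fin l) ℂ (J x)).subtype
      ((ψ x).comp (specht n (I x)).subtype) (z x) := by
  conv_lhs => rw [← DirectSum.sum_univ_of z]
  rw [map_sum]
  refine Finset.sum_congr rfl fun x _ => ?_
  rw [← DirectSum.lof_eq_of ℂ, theta, DirectSum.toModule_lof]

lemma theta_injective
    (hind : ∀ s : ι → PP n, (∀ x, s x ∈ specht n (I x)) → ∑ x, ψ x (s x) = 0 → ∀ x, s x = 0) :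
    Function.Injective (theta I J ψ l) := by
  intro z z' hz
  set bb := basisMonomials (Fin l) ℂ
  let c : ∀ x, homogeneousSubmodule (Fin l) ℂ (J x) ⊗[ℂ] specht n (I x) → (Fin l →₀ ℕ) →
      specht n (I x) := fun x w α =>
    TensorProduct.equivFinsuppOfBasisLeft bb
      ((homogeneousSubmodule (Fin l) ℂ (J x)).subtype.rTensor _ w) α
  have hc0 : ∀ α x w, ψ x (c x w α) = TensorProduct.equivFinsuppOfBasisLeft bb
      (TensorProduct.map (homogeneousSubmodule (Fin l) ℂ (J x)).subtype
        ((ψ x).comp (specht n (I x)).subtype) w) α := by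
    intro α x w
    simp only [c]
    induction w with
    | zero => simp
    | tmul a b => simp
    | add a b ha hb => simp only [map_add, Finsupp.add_apply, Submodule.coe_add, ha, hb]
  have hc : ∀ α x, (c x (z x) α : PP n) - c x (z' x) α = 0 := by
    intro α
    refine hind (fun x => c x (z x) α - c x (z' x) α)
      (fun x => Submodule.sub_mem _ (c x (z x) α).2 (c x (z' x) α).2) ?_
    have h1 := congrArg (fun w => TensorProduct.equivFinsuppOfBasisLeft bb w α) hz
    simp only [theta_eq_sum, map_sum, Finsupp.coe_finsetSum, Finset.sum_apply] at h1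
    simp only [map_sub, Finset.sum_sub_distrib, hc0, h1, sub_self]
  refine DirectSum.ext_component ℂ fun x => ?_
  refine Module.Flat.rTensor_preserves_injective_linearMap _ (Submodule.injective_subtype _) ?_
  apply (TensorProduct.equivFinsuppOfBasisLeft bb).injective
  exact Finsupp.ext fun α => Subtype.ext (sub_eq_zero.mp (hc α x))

lemma theta_equivariant
    (hσ : ∀ x (σ : Equiv.Perm (Fin n)) s, ψ x (rename σ s) = rename σ (ψ x s))
    (g : Equiv.Perm (Fin n) × GL (Fin l) ℂ)
    (z : ⨁ x : ι, homogeneousSubmodule (Fin l) ℂ (J x) ⊗[ℂ] specht n (I x)) :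
    theta I J ψ l (Representation.directSum
        (fun x => (weylRep n l (J x)).tprod (spechtRep n l (I x))) g z)
      = TensorProduct.map (rhoY n l g) (rhoP n l g) (theta I J ψ l z) := by
  rw [theta_eq_sum, theta_eq_sum, map_sum]
  refine Finset.sum_congr rfl fun x _ => ?_
  rw [Representation.directSum_apply, DirectSum.lmap_apply, Representation.tprod_apply]
  generalize z x = w
  induction w with
  | zero => simp
  | tmul a b =>
    simp only [TensorProduct.map_tmul, LinearMap.comp_apply, Submodule.subtype_apply]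
    exact congrArg₂ (fun (p : YY l) (q : PP n) => p ⊗ₜ[ℂ] q) rfl (hσ x g.1 b)
  | add a b ha hb => simp only [map_add, ha, hb]

theorem nonempty_equiv_model
    (hσ : ∀ x (σ : Equiv.Perm (Fin n)) s, ψ x (rename σ s) = rename σ (ψ x s))
    (hh : ∀ x, ∀ s ∈ specht n (I x), (ψ x s).IsHomogeneous (J x))
    (hind : ∀ s : ι → PP n, (∀ x, s x ∈ specht n (I x)) → ∑ x, ψ x (s x) = 0 → ∀ x, s x = 0)
    (M : Submodule ℂ (RR n l)) (hM : M = polSpan l (⨆ x, (specht n (I x)).map (ψ x)))
    (hst : ∀ g, M ≤ M.comap (rhoX n l g)) :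
    Nonempty (((rhoX n l).subrepresentation M hst).Equiv (Representation.directSum
        (fun x => (weylRep n l (J x)).tprod (spechtRep n l (I x))))) := by
  set e := (polTensor n l).comp (theta I J ψ l) with he
  have hspec : ∀ z, spec n l (e z) = theta I J ψ l z := by
    intro z
    rw [he, LinearMap.comp_apply, theta_eq_sum, map_sum, map_sum]
    refine Finset.sum_congr rfl fun x _ => ?_
    generalize z x = w
    induction w with
    | zero => simp
    | tmul a b => exact spec_polTensor a.2 (hh x b b.2)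
    | add a b ha hb => simp only [map_add, ha, hb]
  have hmem : ∀ z, e z ∈ M := by
    intro z
    rw [he, LinearMap.comp_apply, theta_eq_sum, map_sum, hM]
    refine Submodule.sum_mem _ fun x _ => ?_
    generalize z x = w
    induction w with
    | zero => simp
    | tmul a b =>
      exact polTensor_mem _ (Submodule.mem_iSup_of_mem x (Submodule.mem_map_of_mem b.2))
    | add a b ha hb => rw [map_add, map_add]; exact Submodule.add_mem _ ha hb
  have hsurj : M ≤ LinearMap.range e := by
    rw [hM]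
    refine polSpan_le fun α u hu => ?_
    have : (⨆ x, (specht n (I x)).map (ψ x)) ≤ (LinearMap.range e).comap (pol n α) := by
      refine iSup_le fun x => ?_
      rintro _ ⟨s, hs, rfl⟩
      rw [Submodule.mem_comap]
      by_cases hα : α.degree = J x
      · refine ⟨(α.multinomial : ℂ) • DirectSum.lof ℂ ι _ x
          ((⟨monomial α 1, isHomogeneous_monomial _ hα⟩ : homogeneousSubmodule (Fin l) ℂ (J x))
            ⊗ₜ[ℂ] (⟨s, hs⟩ : specht n (I x))), ?_⟩
        rw [map_smul, he, LinearMap.comp_apply, theta, DirectSum.toModule_lof,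
          TensorProduct.map_tmul]
        simp only [Submodule.subtype_apply, LinearMap.comp_apply]
        rw [polTensor_monomial, smul_smul, mul_inv_cancel₀ (multinomial_ne_zero α), one_smul]
      · rw [pol_eq_zero_of_degree_ne (hh x s hs) hα]
        exact Submodule.zero_mem _
    exact this hu
  have hinj : Function.Injective e := by
    intro z z' h
    apply theta_injective I J ψ hind
    rw [← hspec, ← hspec, h]
  let e' := LinearEquiv.ofBijective (e.codRestrict M hmem)
    ⟨fun z z' h => hinj (congrArg Subtype.val h), fun ⟨p, hp⟩ => by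
      obtain ⟨z, hz⟩ := hsurj hp
      exact ⟨z, Subtype.ext hz⟩⟩
  refine ⟨(Representation.Equiv.mk e' fun g => LinearMap.ext fun z => Subtype.ext ?_).symm⟩
  change e (Representation.directSum
    (fun x => (weylRep n l (J x)).tprod (spechtRep n l (I x))) g z) = rhoX n l g (e z)
  obtain ⟨z', hz'⟩ := hsurj (hst g (hmem z))
  rw [← hz']
  congr 1
  apply theta_injective I J ψ hind
  rw [theta_equivariant I J ψ hσ, ← hspec z', hz', spec_rhoX, hspec]

end model

end Pool.Agent.MP_30ddb3_co
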