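import Mathlib
import Pool.Agent.MP_30ddb3_co.Polar

/-!
Polynomials acting as differential operators, Specht polynomials and elementary symmetric
polynomials.
-/

namespace Pool.Agent.MP_30ddb3_co

open MvPolynomial Finset

variable {n : ℕ}

lemma pderiv_comm (i j : Fin n) (p : PP n) : pderiv i (pderiv j p) = pderiv j (pderiv i p) := by
  ext m
  simp only [coeff_pderiv]
  rw [add_right_comm m]
  by_cases h : i = j
  · subst h; rfl
  · simp [h, Ne.symm h]
    ring

open scoped IsMulCommutative in
lemma exists_dop (n : ℕ) : ∃ φ : PP n →ₐ[ℂ] Module.End ℂ (PP n),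
    ∀ j p, φ (X j) p = pderiv j p := by
  let s : Set (Module.End ℂ (PP n)) := Set.range fun j : Fin n => (pderiv j).toLinearMap
  have := Algebra.isMulCommutative_adjoin ℂ (s := s) (by
    rintro _ ⟨i, rfl⟩ _ ⟨j, rfl⟩
    exact LinearMap.ext fun p => pderiv_comm i j p)
  refine ⟨(Algebra.adjoin ℂ s).val.comp
    (aeval fun j => (⟨(pderiv j).toLinearMap, Algebra.subset_adjoin ⟨j, rfl⟩⟩ :
      Algebra.adjoin ℂ s)), fun j p => ?_⟩
  simp

/-- A polynomial acting as a differential operator with constant coefficients. -/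
noncomputable def dop (n : ℕ) : PP n →ₐ[ℂ] Module.End ℂ (PP n) := (exists_dop n).choose

lemma dop_X (j : Fin n) (p : PP n) : dop n (X j) p = pderiv j p := (exists_dop n).choose_spec j p

lemma dop_mul (g g' p : PP n) : dop n (g * g') p = dop n g (dop n g' p) := by
  rw [map_mul]; rfl

lemma dop_X_mul (j : Fin n) (g p : PP n) : dop n (X j * g) p = pderiv j (dop n g p) := by
  rw [dop_mul, dop_X]

lemma dop_mul_X (j : Fin n) (g p : PP n) : dop n (g * X j) p = dop n g (pderiv j p) := by
  rw [dop_mul, dop_X]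

lemma pderiv_dop (j : Fin n) (g p : PP n) : pderiv j (dop n g p) = dop n g (pderiv j p) := by
  rw [← dop_X_mul, mul_comm, dop_mul_X]

lemma dop_C (c : ℂ) (p : PP n) : dop n (C c) p = c • p := by
  rw [← algebraMap_eq, AlgHom.commutes, Module.algebraMap_end_apply]

lemma dop_mem {W : Submodule ℂ (PP n)} (hW : ∀ j, ∀ u ∈ W, pderiv j u ∈ W) (g : PP n) {h : PP n}
    (hh : h ∈ W) : dop n g h ∈ W := by
  induction g using MvPolynomial.induction_on with
  | C a => rw [dop_C]; exact W.smul_mem _ hh
  | add p q hp hq => rw [map_add, LinearMap.add_apply]; exact W.add_mem hp hq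
  | mul_X p j hp => rw [mul_comm, dop_X_mul]; exact hW _ _ hp

lemma rename_dop (σ : Equiv.Perm (Fin n)) (g h : PP n) :
    rename σ (dop n g h) = dop n (rename σ g) (rename σ h) := by
  induction g using MvPolynomial.induction_on with
  | C a => simp
  | add p q hp hq => simp [hp, hq]
  | mul_X p j hp =>
    rw [mul_comm, dop_X_mul, map_mul, rename_X, dop_X_mul, ← hp, pderiv_rename σ.injective]

lemma dop_isHomogeneous {h : PP n} {d : ℕ} (hh : h.IsHomogeneous d) (k : ℕ) :
    ∀ g : PP n, g.IsHomogeneous k → (dop n g h).IsHomogeneous (d - k) := by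
  induction k with
  | zero =>
    intro g hg
    rw [totalDegree_eq_zero_iff_eq_C.mp ((totalDegree_zero_iff_isHomogeneous _).mpr hg), dop_C]
    exact (homogeneousSubmodule _ _ d).smul_mem _ hh
  | succ k ih =>
    intro g hg
    have h1 := hg.sum_X_mul_pderiv
    have h2 : dop n g h = ((k + 1 : ℕ) : ℂ)⁻¹ • ∑ j, pderiv j (dop n (pderiv j g) h) := by
      simp only [← dop_X_mul]
      rw [← LinearMap.sum_apply, ← map_sum, h1, map_nsmul, LinearMap.smul_apply,
        ← Nat.cast_smul_eq_nsmul ℂ, smul_smul,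
        inv_mul_cancel₀ (Nat.cast_ne_zero.mpr (Nat.succ_ne_zero k)), one_smul]
    rw [h2]
    refine (homogeneousSubmodule _ _ _).smul_mem _ (Submodule.sum_mem _ fun j _ => ?_)
    exact (ih _ hg.pderiv).pderiv

/-- The sum of the variables. -/
noncomputable def e1 (n : ℕ) : PP n := ∑ j, X j

/-- The sum of the partial derivatives. -/
noncomputable def DD (n : ℕ) : Derivation ℂ (PP n) (PP n) := ∑ j, pderiv j

lemma DD_apply (p : PP n) : DD n p = ∑ j, pderiv j p := by
  rw [DD]
  induction (univ : Finset (Fin n)) using Finset.induction_on with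
  | empty => simp
  | insert a s ha ih => rw [sum_insert ha, sum_insert ha, Derivation.add_apply, ih]

lemma DD_X (j : Fin n) : DD n (X j) = 1 := by
  rw [DD_apply, sum_eq_single j]
  · simp
  · intro b _ hb
    exact pderiv_X_of_ne hb.symm
  · simp

lemma pderiv_e1 (j : Fin n) : pderiv j (e1 n) = 1 := by
  rw [e1, map_sum, sum_eq_single j]
  · simp
  · intro b _ hb
    exact pderiv_X_of_ne hb
  · simp

lemma DD_e1 : DD n (e1 n) = n := by
  simp [e1, map_sum, DD_X]

lemma dop_e1 (p : PP n) : dop n (e1 n) p = DD n p := by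
  simp [e1, map_sum, LinearMap.sum_apply, dop_X, DD_apply]

lemma dop_e1_pow_mul (t : ℕ) (g p : PP n) : dop n (e1 n ^ t * g) p = (DD n)^[t] (dop n g p) := by
  induction t with
  | zero => simp
  | succ t ih => rw [pow_succ', mul_assoc, dop_mul, ih, dop_e1, Function.iterate_succ_apply']

lemma e1_isHomogeneous : (e1 n).IsHomogeneous 1 :=
  IsHomogeneous.sum _ _ 1 fun k _ => isHomogeneous_X _ k

lemma rename_e1 (σ : Equiv.Perm (Fin n)) : rename σ (e1 n) = e1 n := by
  simp only [e1, map_sum, rename_X]
  exact Equiv.sum_comp σ X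

lemma iterate_DD_e1_mul (t : ℕ) (h : PP n) :
    (DD n)^[t + 1] (e1 n * h)
      = e1 n * (DD n)^[t + 1] h + (((t + 1) * n : ℕ) : ℂ) • (DD n)^[t] h := by
  induction t with
  | zero =>
    simp only [zero_add, Function.iterate_one, Derivation.leibniz, DD_e1, smul_eq_mul, one_mul,
      Function.iterate_zero_apply, Nat.cast_smul_eq_nsmul, nsmul_eq_mul]
    ring
  | succ t ih =>
    rw [Function.iterate_succ_apply', ih, map_add, Derivation.leibniz, DD_e1, Derivation.map_smul,
      ← Function.iterate_succ_apply' (DD n) (t + 1), ← Function.iterate_succ_apply' (DD n) t]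
    simp only [smul_eq_mul, Nat.cast_smul_eq_nsmul, nsmul_eq_mul]
    push_cast
    ring

/-- The elementary symmetric polynomial of degree `k` in the variables indexed by `T`. -/
noncomputable def eT (T : Finset (Fin n)) (k : ℕ) : PP n := ∑ S ∈ T.powersetCard k, ∏ j ∈ S, X j

lemma esymm_eq_eT (k : ℕ) : esymm (Fin n) ℂ k = eT univ k := rfl

lemma eT_zero (T : Finset (Fin n)) : eT T 0 = 1 := by simp [eT]

lemma eT_empty (k : ℕ) : eT (∅ : Finset (Fin n)) (k + 1) = 0 := by
  rw [eT, powersetCard_eq_empty.mpr (by simp), sum_empty]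

lemma eT_insert {a : Fin n} {T : Finset (Fin n)} (ha : a ∉ T) (k : ℕ) :
    eT (insert a T) (k + 1) = eT T (k + 1) + X a * eT T k := by
  have hnot : ∀ {r : ℕ} {S : Finset (Fin n)}, S ∈ T.powersetCard r → a ∉ S :=
    fun hS h => ha ((mem_powersetCard.mp hS).1 h)
  rw [eT, powersetCard_succ_insert ha, sum_union, sum_image, eT, eT, mul_sum]
  · refine congrArg₂ (· + ·) rfl (sum_congr rfl fun S hS => ?_)
    rw [prod_insert (hnot hS)]
  · intro S hS S' hS' h
    rw [← erase_insert (hnot hS), h, erase_insert (hnot hS')]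
  · rw [disjoint_left]
    intro S hS hS'
    obtain ⟨S', -, rfl⟩ := mem_image.mp hS'
    exact hnot hS (mem_insert_self _ _)

lemma eT_isHomogeneous (T : Finset (Fin n)) (k : ℕ) : (eT T k).IsHomogeneous k := by
  refine IsHomogeneous.sum _ _ _ fun S hS => ?_
  have := IsHomogeneous.prod S (fun j => (X j : PP n)) (fun _ => 1)
    (fun j _ => isHomogeneous_X _ j)
  rwa [sum_const, smul_eq_mul, mul_one, (mem_powersetCard.mp hS).2] at this

lemma pderiv_eT_of_notMem {a : Fin n} {T : Finset (Fin n)} (ha : a ∉ T) (k : ℕ) :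
    pderiv a (eT T k) = 0 := by
  induction T using Finset.induction_on generalizing k with
  | empty => cases k <;> simp [eT_zero, eT_empty]
  | insert b T hb ih =>
    rw [mem_insert, not_or] at ha
    cases k with
    | zero => simp [eT_zero]
    | succ k => simp [eT_insert hb, ih ha.2, pderiv_X_of_ne (Ne.symm ha.1)]

lemma pderiv_eT_of_mem {a : Fin n} {T : Finset (Fin n)} (ha : a ∈ T) (k : ℕ) :
    pderiv a (eT T (k + 1)) = eT (T.erase a) k := by
  conv_lhs => rw [← insert_erase ha]
  simp [eT_insert (notMem_erase a T), pderiv_eT_of_notMem (notMem_erase a T)]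

lemma pderiv_pderiv_eT (a : Fin n) (T : Finset (Fin n)) (k : ℕ) :
    pderiv a (pderiv a (eT T k)) = 0 := by
  by_cases ha : a ∈ T
  · cases k with
    | zero => simp [eT_zero]
    | succ k => rw [pderiv_eT_of_mem ha, pderiv_eT_of_notMem (notMem_erase a T)]
  · rw [pderiv_eT_of_notMem ha, map_zero]

lemma DD_eT (T : Finset (Fin n)) (k : ℕ) :
    DD n (eT T (k + 1)) = ((T.card : ℂ) - k) • eT T k := by
  induction T using Finset.induction_on generalizing k with
  | empty => cases k <;> simp [eT_empty]
  | insert a T ha ih =>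
    rw [eT_insert ha, map_add, Derivation.leibniz, DD_X, ih, card_insert_of_notMem ha]
    cases k with
    | zero =>
      simp only [eT_zero, Derivation.map_one_eq_zero, smul_eq_C_mul, smul_eq_mul]
      simp
    | succ k =>
      rw [ih, eT_insert ha]
      simp only [smul_eq_C_mul, smul_eq_mul]
      push_cast
      simp only [map_sub, map_add, map_one]
      ring

lemma sub_pderiv_eT {a b : Fin n} {T : Finset (Fin n)} (ha : a ∈ T) (hb : b ∈ T) (hab : a ≠ b)
    (k : ℕ) : pderiv a (eT T (k + 2)) - pderiv b (eT T (k + 2))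
      = -((X a - X b) * eT ((T.erase a).erase b) k) := by
  rw [pderiv_eT_of_mem ha, pderiv_eT_of_mem hb]
  have h1 : T.erase a = insert b ((T.erase a).erase b) :=
    (insert_erase (mem_erase.mpr ⟨hab.symm, hb⟩)).symm
  have h2 : T.erase b = insert a ((T.erase a).erase b) := by
    rw [erase_right_comm]
    exact (insert_erase (mem_erase.mpr ⟨hab, ha⟩)).symm
  rw [h2]
  conv_lhs => rw [h1]
  rw [eT_insert (notMem_erase _ _), eT_insert (by simp), ← h1]
  ring

/-- The constants produced by iterating `DD` on elementary symmetric polynomials. -/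
noncomputable def kap (N k : ℂ) (t : ℕ) : ℂ := ∏ r ∈ range t, (N - k + 1 + r)

lemma kap_ne_zero {N k : ℕ} (h : k ≤ N) (t : ℕ) : kap N k t ≠ 0 := by
  refine prod_ne_zero_iff.mpr fun r _ => ?_
  obtain ⟨c, rfl⟩ := Nat.exists_eq_add_of_le h
  have : ((k + c : ℕ) : ℂ) - k + 1 + r = ((c + r + 1 : ℕ) : ℂ) := by push_cast; ring
  rw [this]
  exact Nat.cast_ne_zero.mpr (Nat.succ_ne_zero _)

lemma iterate_DD_mul_eT {p : PP n} (hp : DD n p = 0) (T : Finset (Fin n)) (k t : ℕ) :
    (DD n)^[t] (p * eT T k) = if t ≤ k then kap T.card k t • (p * eT T (k - t)) else 0 := by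
  induction t with
  | zero => simp [kap]
  | succ t ih =>
    rw [Function.iterate_succ_apply', ih]
    by_cases h : t + 1 ≤ k
    · obtain ⟨r, rfl⟩ := Nat.exists_eq_add_of_le h
      have h1 : t + 1 + r - t = r + 1 := by omega
      have h2 : t + 1 + r - (t + 1) = r := by omega
      rw [if_pos (by omega), if_pos h, h1, h2, Derivation.map_smul, Derivation.leibniz, hp, DD_eT,
        smul_zero, add_zero, smul_eq_mul, mul_smul_comm, smul_smul, kap, kap, prod_range_succ]
      congr 2
      push_cast
      ring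
    · rw [if_neg h]
      split_ifs with h'
      · have : k - t = 0 := by omega
        rw [this, eT_zero, mul_one, Derivation.map_smul, hp, smul_zero]
      · exact map_zero _

/-- `p` is a Specht polynomial with `i` pairs, and `T` is the set of unused variables. -/
inductive IsDelta : ℕ → Finset (Fin n) → PP n → Prop
  | zero : IsDelta 0 univ 1
  | succ {i : ℕ} {T : Finset (Fin n)} {p : PP n} {a b : Fin n} : IsDelta i T p → a ∈ T → b ∈ T →
      a ≠ b → IsDelta (i + 1) ((T.erase a).erase b) ((X a - X b) * p)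

namespace IsDelta

variable {i : ℕ} {T : Finset (Fin n)} {p : PP n}

lemma card (h : IsDelta i T p) : T.card + 2 * i = n := by
  induction h with
  | zero => simp
  | @succ i T p a b _ ha hb hab ih =>
    have h1 := card_erase_add_one ha
    have h2 := card_erase_add_one (mem_erase.mpr ⟨hab.symm, hb⟩)
    omega

lemma pderiv_eq_zero (h : IsDelta i T p) : ∀ j ∈ T, pderiv j p = 0 := by
  induction h with
  | zero => simp
  | @succ i T p a b _ ha hb hab ih =>
    intro j hj
    simp only [mem_erase] at hj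
    simp [ih j hj.2.2, pderiv_X_of_ne (Ne.symm hj.1), pderiv_X_of_ne (Ne.symm hj.2.1)]

lemma DD_eq_zero (h : IsDelta i T p) : DD n p = 0 := by
  induction h with
  | zero => simp
  | succ _ ha hb hab ih => simp [ih, DD_X]

lemma isHomogeneous (h : IsDelta i T p) : p.IsHomogeneous i := by
  induction h with
  | zero => exact isHomogeneous_one _ _
  | succ _ ha hb hab ih =>
    rw [add_comm]
    exact ((isHomogeneous_X _ _).sub (isHomogeneous_X _ _)).mul ih

lemma ne_zero (h : IsDelta i T p) : p ≠ 0 := by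
  induction h with
  | zero => exact one_ne_zero
  | succ _ ha hb hab ih => exact mul_ne_zero (sub_ne_zero.mpr (X_injective.ne hab)) ih

lemma dop_eT (h : IsDelta i T p) (k : ℕ) :
    dop n p (eT univ k) = if 2 * i ≤ k then (-1 : ℂ) ^ i • (p * eT T (k - 2 * i)) else 0 := by
  induction h with
  | zero => simp
  | @succ i T p a b h ha hb hab ih =>
    rw [sub_mul, map_sub, LinearMap.sub_apply, dop_X_mul, dop_X_mul, ih]
    by_cases hk : 2 * i ≤ k
    · obtain ⟨r, rfl⟩ := Nat.exists_eq_add_of_le hk
      rw [if_pos hk, Nat.add_sub_cancel_left, Derivation.map_smul, Derivation.map_smul, pderiv_mul,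
        pderiv_mul, h.pderiv_eq_zero a ha, h.pderiv_eq_zero b hb, zero_mul, zero_add, zero_add,
        ← smul_sub, ← mul_sub]
      rcases r with _ | _ | r
      · rw [if_neg (by omega)]
        simp [eT_zero]
      · rw [if_neg (by omega), pderiv_eT_of_mem ha, pderiv_eT_of_mem hb]
        simp [eT_zero]
      · have : 2 * i + (r + 1 + 1) - 2 * (i + 1) = r := by omega
        rw [if_pos (by omega), this, sub_pderiv_eT ha hb hab, pow_succ, mul_smul, neg_one_smul]
        congr 1
        ring
    · rw [if_neg hk, if_neg (by omega)]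
      simp

lemma dop_e1_mul (h : IsDelta i T p) (g : PP n) : dop n p (e1 n * g) = e1 n * dop n p g := by
  induction h with
  | zero => simp
  | succ _ ha hb hab ih =>
    simp only [sub_mul, map_sub, LinearMap.sub_apply, dop_X_mul, ih, pderiv_mul, pderiv_e1]
    ring

lemma dop_pow_eT (h : IsDelta i T p) (t k : ℕ) :
    dop n (e1 n ^ t * p) (eT univ k)
      = if t + 2 * i ≤ k then ((-1 : ℂ) ^ i * kap n k t) • (p * eT T (k - 2 * i - t)) else 0 := by
  rw [dop_e1_pow_mul, h.dop_eT]
  by_cases hk : 2 * i ≤ k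
  · rw [if_pos hk]
    have hlin : ∀ (c : ℂ) (q : PP n), (DD n)^[t] (c • q) = c • (DD n)^[t] q := by
      intro c q
      rw [← one_mul q, ← dop_C, ← dop_e1_pow_mul, mul_comm, dop_mul, dop_C, one_mul]
      rw [← mul_one (e1 n ^ t), dop_e1_pow_mul, map_one, Module.End.one_apply]
    rw [hlin, iterate_DD_mul_eT h.DD_eq_zero]
    by_cases ht : t + 2 * i ≤ k
    · rw [if_pos ht, if_pos (by omega), smul_smul]
      congr 2
      rw [kap, kap]
      refine prod_congr rfl fun r _ => ?_
      have hc : (n : ℂ) = T.card + 2 * i := by exact_mod_cast h.card.symm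
      rw [Nat.cast_sub hk, hc]
      push_cast
      ring
    · rw [if_neg ht, if_neg (by omega), smul_zero]
  · rw [if_neg hk, if_neg (by omega), Function.iterate_fixed (map_zero _)]

lemma exists_fun (h : IsDelta i T p) : ∃ a b : Fin i → Fin n, Function.Injective (Sum.elim a b) ∧
    p = ∏ r, (X (a r) - X (b r)) ∧ ∀ j ∈ T, ∀ r, j ≠ a r ∧ j ≠ b r := by
  induction h with
  | zero => exact ⟨Fin.elim0, Fin.elim0, fun x => by rcases x with x | x <;> exact x.elim0,
      by simp, fun _ _ r => r.elim0⟩
  | @succ i T p a₀ b₀ _ ha hb hab ih =>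
    obtain ⟨a, b, hinj, rfl, hT⟩ := ih
    rw [Sum.elim_injective] at hinj
    refine ⟨Fin.cons a₀ a, Fin.cons b₀ b, ?_, by simp [Fin.prod_univ_succ], ?_⟩
    · rw [Sum.elim_injective, Fin.cons_injective_iff, Fin.cons_injective_iff]
      refine ⟨⟨?_, hinj.1⟩, ⟨?_, hinj.2.1⟩, ?_⟩
      · rintro ⟨r, hr⟩
        exact (hT a₀ ha r).1 hr.symm
      · rintro ⟨r, hr⟩
        exact (hT b₀ hb r).2 hr.symm
      · intro r s
        refine Fin.cases ?_ (fun r => ?_) r <;> refine Fin.cases ?_ (fun s => ?_) s
        · simpa using hab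
        · simpa using (hT a₀ ha s).2
        · simpa using (hT b₀ hb r).1.symm
        · simpa using hinj.2.2 r s
    · intro j hj r
      simp only [mem_erase] at hj
      refine Fin.cases ?_ (fun r => ?_) r
      · simpa using ⟨hj.2.1, hj.1⟩
      · simpa using hT j hj.2.2 r

lemma mem_specht (h : IsDelta i T p) : p ∈ specht n i := by
  obtain ⟨a, b, hinj, hp, -⟩ := h.exists_fun
  exact Submodule.subset_span ⟨a, b, hinj, hp⟩

lemma compl_mul_mem (h : IsDelta i T p) :
    (∑ j ∈ Tᶜ, X j) * p ∈ Ideal.span (Set.range fun j : Fin n => (X j * X j : PP n)) := by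
  induction h with
  | zero => simp
  | @succ i T p a b _ ha hb hab ih =>
    have h1 : ((T.erase a).erase b)ᶜ = insert b (insert a Tᶜ) := by
      rw [compl_erase, compl_erase]
    rw [h1, sum_insert (by simp [hab.symm, hb]), sum_insert (by simpa using ha)]
    have h2 : (X b + (X a + ∑ j ∈ Tᶜ, X j)) * ((X a - X b) * p)
        = (X a - X b) * ((∑ j ∈ Tᶜ, X j) * p) + (p * (X a * X a) - p * (X b * X b)) := by ring
    rw [h2]
    exact Ideal.add_mem _ (Ideal.mul_mem_left _ _ ih)
      (Ideal.sub_mem _ (Ideal.mul_mem_left _ _ (Ideal.subset_span ⟨a, rfl⟩))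
        (Ideal.mul_mem_left _ _ (Ideal.subset_span ⟨b, rfl⟩)))

end IsDelta

lemma exists_isDelta (i : ℕ) : ∀ a b : Fin i → Fin n, Function.Injective (Sum.elim a b) →
    ∃ T, IsDelta i T (∏ r, (X (a r) - X (b r))) ∧ ∀ j, (∀ r, j ≠ a r ∧ j ≠ b r) → j ∈ T := by
  induction i with
  | zero => exact fun a b _ => ⟨univ, by simpa using IsDelta.zero, fun j _ => mem_univ j⟩
  | succ i ih =>
    intro a b hinj
    rw [Sum.elim_injective] at hinj
    obtain ⟨T, hT, hmem⟩ := ih (fun r => a r.succ) (fun r => b r.succ) (by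
      rw [Sum.elim_injective]
      exact ⟨hinj.1.comp (Fin.succ_injective i), hinj.2.1.comp (Fin.succ_injective i),
        fun r s => hinj.2.2 _ _⟩)
    refine ⟨(T.erase (a 0)).erase (b 0), ?_, fun j hj => ?_⟩
    · rw [Fin.prod_univ_succ]
      refine hT.succ (hmem _ fun r => ⟨hinj.1.ne (Fin.succ_ne_zero r).symm, hinj.2.2 _ _⟩)
        (hmem _ fun r => ⟨(hinj.2.2 _ _).symm, hinj.2.1.ne (Fin.succ_ne_zero r).symm⟩)
        (hinj.2.2 _ _)
    · simp only [mem_erase]
      exact ⟨(hj 0).2, (hj 0).1, hmem j fun r => hj _⟩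

lemma specht_le {i : ℕ} {W : Submodule ℂ (PP n)} (h : ∀ T p, IsDelta i T p → p ∈ W) :
    specht n i ≤ W := by
  refine Submodule.span_le.mpr ?_
  rintro _ ⟨a, b, hinj, rfl⟩
  obtain ⟨T, hT, -⟩ := exists_isDelta i a b hinj
  exact h T _ hT

lemma eq_on_specht {i : ℕ} (A B : PP n →ₗ[ℂ] PP n) (h : ∀ T p, IsDelta i T p → A p = B p) :
    ∀ s ∈ specht n i, A s = B s :=
  fun _ hs => specht_le (W := LinearMap.eqLocus A B) h hs

/-- Modulo the squares of the variables, the products `e₁^t · Δ` span all polynomials. -/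
theorem mem_of_sq_of_delta {W : Submodule ℂ (PP n)} (h1 : ∀ j g, g * (X j * X j) ∈ W)
    (h2 : ∀ t i T p, IsDelta i T p → e1 n ^ t * p ∈ W) (g : PP n) : g ∈ W := by
  have hJ : ∀ q ∈ Ideal.span (Set.range fun j : Fin n => (X j * X j : PP n)), q ∈ W := by
    intro q hq
    obtain ⟨c, rfl⟩ := Ideal.mem_span_range_iff_exists_fun.mp hq
    exact W.sum_mem fun j _ => h1 j _
  have key : ∀ (S : Finset (Fin n)) t i T p, IsDelta i T p → S ⊆ T →
      e1 n ^ t * (∏ j ∈ S, X j) * p ∈ W := by
    intro S
    induction S using Finset.induction_on with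
    | empty => intro t i T p h _; simpa using h2 t i T p h
    | insert c S hc ih =>
      intro t i T p h hS
      have hST : S ⊆ T := (subset_insert c S).trans hS
      have hcT : c ∈ T \ S := mem_sdiff.mpr ⟨hS (mem_insert_self c S), hc⟩
      set z := e1 n ^ t * (∏ j ∈ S, X j) * p with hz
      have a1 : e1 n * z ∈ W := by
        have := ih (t + 1) i T p h hST
        rw [hz]
        convert this using 1
        ring
      have a2 : (∑ j ∈ S, X j) * z ∈ W := by
        rw [sum_mul]
        refine W.sum_mem fun j hj => ?_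
        have := h1 j (e1 n ^ t * (∏ j ∈ S.erase j, X j) * p)
        rw [hz, ← mul_prod_erase S _ hj]
        convert this using 1
        ring
      have a3 : (∑ j ∈ Tᶜ, X j) * z ∈ W := by
        have := hJ _ (Ideal.mul_mem_left _ (e1 n ^ t * ∏ j ∈ S, X j) h.compl_mul_mem)
        rw [hz]
        convert this using 1
        ring
      have a4 : ∑ j ∈ T \ S, (X j - X c) * z ∈ W := by
        refine W.sum_mem fun j hj => ?_
        by_cases hjc : j = c
        · simp [hjc]
        · have := ih t (i + 1) _ _ (h.succ (mem_sdiff.mp hj).1 (mem_sdiff.mp hcT).1 hjc) (by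
            intro x hx
            simp only [mem_erase]
            exact ⟨fun h => hc (h ▸ hx), fun h => (mem_sdiff.mp hj).2 (h ▸ hx), hST hx⟩)
          rw [hz]
          convert this using 1
          ring
      have e : e1 n = ∑ j ∈ T \ S, X j + ∑ j ∈ S, X j + ∑ j ∈ Tᶜ, X j := by
        rw [sum_sdiff hST, sum_add_sum_compl, e1]
      have a5 : ((T \ S).card : ℂ) • (X c * z) ∈ W := by
        have : ((T \ S).card : ℂ) • (X c * z) = e1 n * z - (∑ j ∈ S, X j) * z
            - (∑ j ∈ Tᶜ, X j) * z - ∑ j ∈ T \ S, (X j - X c) * z := by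
          rw [← sum_mul, sum_sub_distrib, sum_const, e, Nat.cast_smul_eq_nsmul, nsmul_eq_mul,
            nsmul_eq_mul]
          ring
        rw [this]
        exact W.sub_mem (W.sub_mem (W.sub_mem a1 a2) a3) a4
      have a6 := (W.smul_mem_iff (Nat.cast_ne_zero.mpr (card_ne_zero_of_mem hcT))).mp a5
      rw [prod_insert hc]
      convert a6 using 1
      rw [hz]
      ring
  rw [g.as_sum]
  refine W.sum_mem fun α _ => ?_
  by_cases hα : ∀ j, α j ≤ 1
  · have h3 := key α.support 0 0 univ 1 IsDelta.zero (subset_univ _)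
    have h4 : (α.prod fun j e => (X j : PP n) ^ e) = ∏ j ∈ α.support, X j := by
      refine prod_congr rfl fun j hj => ?_
      have := hα j
      have h5 := Finsupp.mem_support_iff.mp hj
      have h6 : α j = 1 := by omega
      simp [h6]
    rw [monomial_eq, h4, C_mul']
    exact W.smul_mem _ (by simpa using h3)
  · push Not at hα
    obtain ⟨j, hj⟩ := hα
    have h3 : α = (α - Finsupp.single j 2) + Finsupp.single j 2 :=
      (tsub_add_cancel_of_le (by rw [Finsupp.single_le_iff]; omega)).symm
    have h4 := h1 j (monomial (α - Finsupp.single j 2) (coeff α g))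
    rw [← sq, X_pow_eq_monomial, monomial_mul, mul_one, ← h3] at h4
    exact h4

end Pool.Agent.MP_30ddb3_co
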