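import Mathlib
import Pool.Agent.MP_30ddb3_co.DiffOp

/-!
The one-row module generated by `e₁ e_m - c e_{m+1}` and its decomposition into Specht modules.
-/

namespace Pool.Agent.MP_30ddb3_co

open MvPolynomial Finset

variable {n : ℕ}

/-- The generator `e₁ e_m - c e_{m+1}`. -/
noncomputable def ff (n m : ℕ) (c : ℂ) : PP n := e1 n * eT univ m - c • eT univ (m + 1)

/-- The map `g ↦ g(∂) h`. -/
noncomputable def dopAt (h : PP n) : PP n →ₗ[ℂ] PP n :=
  (LinearMap.applyₗ h).comp (dop n).toLinearMap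

lemma dopAt_apply (h g : PP n) : dopAt h g = dop n g h := rfl

/-- The map `s ↦ (e₁^t s)(∂) h`. -/
noncomputable def psi (h : PP n) (t : ℕ) : PP n →ₗ[ℂ] PP n :=
  (dopAt h).comp (LinearMap.mulLeft ℂ (e1 n ^ t))

lemma psi_apply (h : PP n) (t : ℕ) (s : PP n) : psi h t s = dop n (e1 n ^ t * s) h := rfl

lemma dop_pow_psi (h : PP n) (r t : ℕ) (s : PP n) :
    dop n (e1 n ^ r) (psi h t s) = psi h (r + t) s := by
  rw [psi_apply, psi_apply, ← dop_mul, pow_add, mul_assoc]

lemma rename_eT_univ (σ : Equiv.Perm (Fin n)) (k : ℕ) : rename σ (eT univ k) = eT univ k :=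
  rename_esymm (Fin n) ℂ k σ

lemma rename_ff (σ : Equiv.Perm (Fin n)) (m : ℕ) (c : ℂ) : rename σ (ff n m c) = ff n m c := by
  simp [ff, rename_e1, rename_eT_univ]

lemma psi_rename {h : PP n} (σ : Equiv.Perm (Fin n)) (hh : rename σ h = h) (t : ℕ) (s : PP n) :
    psi h t (rename σ s) = rename σ (psi h t s) := by
  rw [psi_apply, psi_apply, rename_dop, hh, map_mul (rename σ), map_pow (rename σ), rename_e1]

lemma ff_isHomogeneous (m : ℕ) (c : ℂ) : (ff n m c).IsHomogeneous (m + 1) := by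
  refine IsHomogeneous.sub ?_ ((homogeneousSubmodule _ _ _).smul_mem _ (eT_isHomogeneous _ _))
  rw [add_comm]
  exact e1_isHomogeneous.mul (eT_isHomogeneous _ _)

lemma specht_isHomogeneous {i : ℕ} {s : PP n} (hs : s ∈ specht n i) : s.IsHomogeneous i :=
  specht_le (W := homogeneousSubmodule _ _ i) (fun _ _ h => h.isHomogeneous) hs

lemma psi_isHomogeneous {h : PP n} {d : ℕ} (hh : h.IsHomogeneous d) (t : ℕ) {i : ℕ} {s : PP n}
    (hs : s ∈ specht n i) : (psi h t s).IsHomogeneous (d - (t + i)) := by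
  refine dop_isHomogeneous hh _ _ ?_
  have := (e1_isHomogeneous (n := n)).pow t
  rw [one_mul] at this
  exact this.mul (specht_isHomogeneous hs)

lemma pderiv_pderiv_ff (j : Fin n) (m : ℕ) (c : ℂ) :
    pderiv j (pderiv j (ff n m c)) = (2 : ℂ) • pderiv j (eT univ m) := by
  simp only [ff, map_sub, Derivation.map_smul, pderiv_mul, pderiv_e1, pderiv_pderiv_eT, one_mul,
    map_add, mul_zero, smul_zero, add_zero, sub_zero, two_smul]

lemma IsDelta.dop_ff_zero {i : ℕ} {T : Finset (Fin n)} {p : PP n} (h : IsDelta i T p) (m : ℕ)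
    (c : ℂ) : psi (ff n m c) 0 p
      = e1 n * psi (eT univ m) 0 p - c • psi (eT univ (m + 1)) 0 p := by
  simp only [psi_apply, pow_zero, one_mul, ff, map_sub, map_smul, h.dop_e1_mul]

lemma IsDelta.dop_ff_succ {i : ℕ} {T : Finset (Fin n)} {p : PP n} (h : IsDelta i T p) (m : ℕ)
    (c : ℂ) (t : ℕ) : psi (ff n m c) (t + 1) p
      = e1 n * psi (eT univ m) (t + 1) p + (((t + 1) * n : ℕ) : ℂ) • psi (eT univ m) t p
        - c • psi (eT univ (m + 1)) (t + 1) p := by
  simp only [psi_apply, ff, map_sub, map_smul]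
  rw [dop_e1_pow_mul (t + 1) p (e1 n * _), h.dop_e1_mul, iterate_DD_e1_mul, ← dop_e1_pow_mul,
    ← dop_e1_pow_mul]

lemma psi_eT_eq_zero {i k t : ℕ} (hk : k < t + 2 * i) {s : PP n} (hs : s ∈ specht n i) :
    psi (eT univ k) t s = 0 :=
  eq_on_specht (psi (eT univ k) t) 0 (fun T p h => by
    rw [psi_apply, h.dop_pow_eT, if_neg (by omega), LinearMap.zero_apply]) s hs

lemma psi_eT_eq_smul {i k t : ℕ} (hk : t + 2 * i = k) {s : PP n} (hs : s ∈ specht n i) :
    psi (eT univ k) t s = ((-1 : ℂ) ^ i * kap n k t) • s :=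
  eq_on_specht (psi (eT univ k) t) (((-1 : ℂ) ^ i * kap n k t) • LinearMap.id) (fun T p h => by
    have : k - 2 * i - t = 0 := by omega
    rw [psi_apply, h.dop_pow_eT, if_pos hk.le, this, eT_zero, mul_one, LinearMap.smul_apply,
      LinearMap.id_apply]) s hs

lemma psi_ff_eq_zero {i m t : ℕ} (c : ℂ) (hk : m + 1 < t + 2 * i) {s : PP n}
    (hs : s ∈ specht n i) : psi (ff n m c) t s = 0 :=
  eq_on_specht (psi (ff n m c) t) 0 (fun T p h => by
    cases t with
    | zero =>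
      rw [h.dop_ff_zero, psi_eT_eq_zero (by omega) h.mem_specht,
        psi_eT_eq_zero (by omega) h.mem_specht]
      simp
    | succ t =>
      rw [h.dop_ff_succ, psi_eT_eq_zero (by omega) h.mem_specht,
        psi_eT_eq_zero (by omega) h.mem_specht, psi_eT_eq_zero (by omega) h.mem_specht]
      simp) s hs

lemma psi_ff_special {i m : ℕ} (c : ℂ) (hk : 2 * i = m + 1) {s : PP n} (hs : s ∈ specht n i) :
    psi (ff n m c) 0 s = (-c * ((-1 : ℂ) ^ i * kap n (m + 1 : ℕ) 0)) • s :=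
  eq_on_specht (psi (ff n m c) 0) ((-c * ((-1 : ℂ) ^ i * kap n (m + 1 : ℕ) 0)) • LinearMap.id)
    (fun T p h => by
      rw [h.dop_ff_zero, psi_eT_eq_zero (by omega) h.mem_specht,
        psi_eT_eq_smul (by omega) h.mem_specht, smul_smul]
      simp) s hs

lemma sign_kap_ne_zero (i : ℕ) {N k : ℕ} (h : k ≤ N) (t : ℕ) : (-1 : ℂ) ^ i * kap N k t ≠ 0 :=
  mul_ne_zero (pow_ne_zero _ (by norm_num)) (kap_ne_zero h t)

/-- The operator `∑ⱼ x_j ∂_j²`. -/
noncomputable def E2 (n : ℕ) : PP n →ₗ[ℂ] PP n :=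
  ∑ j, (LinearMap.mulLeft ℂ (X j)).comp ((pderiv j).toLinearMap.comp (pderiv j).toLinearMap)

lemma E2_apply (p : PP n) : E2 n p = ∑ j, X j * pderiv j (pderiv j p) := by
  simp [E2, LinearMap.sum_apply]

lemma E2_psi_eT (k t : ℕ) (s : PP n) : E2 n (psi (eT univ k) t s) = 0 := by
  simp only [E2_apply, psi_apply, pderiv_dop, pderiv_pderiv_eT, map_zero, mul_zero, sum_const_zero]

lemma E2_psi_ff (m : ℕ) (c : ℂ) (t : ℕ) {i : ℕ} {s : PP n} (hs : s ∈ specht n i) :
    E2 n (psi (ff n m c) t s) = ((2 * (m - (t + i)) : ℕ) : ℂ) • psi (eT univ m) t s := by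
  have h := (psi_isHomogeneous (eT_isHomogeneous univ m) t hs).sum_X_mul_pderiv
  rw [Nat.cast_mul, mul_smul, Nat.cast_smul_eq_nsmul ℂ (m - (t + i)), ← h, E2_apply, smul_sum]
  refine sum_congr rfl fun j _ => ?_
  simp only [psi_apply, pderiv_dop, pderiv_pderiv_ff, map_smul, mul_smul_comm, Nat.cast_ofNat]

lemma triangular {ι : Type*} [Fintype ι] (z : ι → PP n) (r : ι → ℕ)
    (hinj : ∀ x y, z x ≠ 0 → z y ≠ 0 → r x = r y → x = y)
    (h0 : ∀ x, dop n (e1 n ^ (r x + 1)) (z x) = 0)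
    (h1 : ∀ x, dop n (e1 n ^ r x) (z x) = 0 → z x = 0) (hs : ∑ x, z x = 0) : ∀ x, z x = 0 := by
  classical
  by_contra hcon
  push Not at hcon
  obtain ⟨x, hx⟩ := hcon
  obtain ⟨y, hy, hmax⟩ := exists_max_image (univ.filter fun x => z x ≠ 0) r ⟨x, by simpa using hx⟩
  have hy' : z y ≠ 0 := by simpa using hy
  apply hy'
  apply h1
  have h2 := congrArg (dop n (e1 n ^ r y)) hs
  rw [map_sum, map_zero, sum_eq_single y] at h2
  · exact h2
  · intro b _ hb
    by_cases hzb : z b = 0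
    · rw [hzb, map_zero]
    · have h3 := hmax b (by simpa using hzb)
      have h4 : r b ≠ r y := fun h => hb (hinj b y hzb hy' h)
      have h5 : r y = (r y - (r b + 1)) + (r b + 1) := by omega
      rw [h5, pow_add, dop_mul, h0, map_zero]
  · simp

/-- The one-row module. -/
noncomputable def UU (n m : ℕ) (c : ℂ) : Submodule ℂ (PP n) :=
  LinearMap.range (dopAt (ff n m c)) ⊔ LinearMap.range (dopAt (eT univ m))

lemma mem_UU {m : ℕ} {c : ℂ} {u : PP n} :
    u ∈ UU n m c ↔ ∃ g g', u = dop n g (ff n m c) + dop n g' (eT univ m) := by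
  rw [UU, Submodule.mem_sup]
  constructor
  · rintro ⟨_, ⟨g, rfl⟩, _, ⟨g', rfl⟩, rfl⟩
    exact ⟨g, g', rfl⟩
  · rintro ⟨g, g', rfl⟩
    exact ⟨_, ⟨g, rfl⟩, _, ⟨g', rfl⟩, rfl⟩

lemma UU_rename (m : ℕ) (c : ℂ) (σ : Equiv.Perm (Fin n)) :
    ∀ u ∈ UU n m c, rename σ u ∈ UU n m c := by
  intro u hu
  obtain ⟨g, g', rfl⟩ := mem_UU.mp hu
  exact mem_UU.mpr ⟨rename σ g, rename σ g', by
    rw [map_add, rename_dop, rename_dop, rename_ff, rename_eT_univ]⟩

theorem polModule_ff {l : ℕ} [NeZero l] {m : ℕ} (hm : m ≠ 0) (c : ℂ) :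
    polModule (rename (fun j => ((0 : Fin l), j)) (ff n m c)) = polSpan l (UU n m c) := by
  apply le_antisymm
  · refine polModule_le_polSpan (mem_UU.mpr ⟨1, 0, by simp⟩) (UU_rename m c) ?_ ?_
    · intro j u hu
      obtain ⟨g, g', rfl⟩ := mem_UU.mp hu
      exact mem_UU.mpr ⟨X j * g, X j * g', by rw [map_add, dop_X_mul, dop_X_mul]⟩
    · intro p hp u hu
      obtain ⟨g, g', rfl⟩ := mem_UU.mp hu
      have h2 : ∀ j, pderiv j (pderiv j (dop n g (ff n m c) + dop n g' (eT univ m)))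
          = pderiv j (dop n ((2 : ℂ) • g) (eT univ m)) := by
        intro j
        simp only [map_add, pderiv_dop, pderiv_pderiv_ff, pderiv_pderiv_eT, map_smul, map_zero,
          add_zero, LinearMap.smul_apply, Derivation.map_smul]
      rcases p with _ | _ | _ | p
      · omega
      · exact ⟨_, hu, fun j => rfl⟩
      · exact ⟨dop n ((2 : ℂ) • g) (eT univ m), mem_UU.mpr ⟨0, (2 : ℂ) • g, by simp⟩, h2⟩
      · refine ⟨0, Submodule.zero_mem _, fun j => ?_⟩
        rw [Function.iterate_succ_apply, Function.iterate_succ_apply, Function.iterate_succ_apply,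
          h2, pderiv_dop, pderiv_dop, pderiv_pderiv_eT, map_zero, map_zero,
          Function.iterate_fixed (map_zero _)]
  · apply polSpan_le_polModule
    have h1 := self_mem_polCore (l := l) (ff_isHomogeneous (n := n) m c)
    have h2 := polCore_sq _ h1 (v := (2 : ℂ) • eT univ m) (fun j => by
      rw [Derivation.map_smul]; exact pderiv_pderiv_ff j m c) hm
      ((homogeneousSubmodule _ _ _).smul_mem _ (eT_isHomogeneous _ _))
    have h3 := (Submodule.smul_mem_iff _ two_ne_zero).mp h2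
    intro u hu
    obtain ⟨g, g', rfl⟩ := mem_UU.mp hu
    exact Submodule.add_mem _ (dop_mem (fun j _ => polCore_pderiv _ j) g h1)
      (dop_mem (fun j _ => polCore_pderiv _ j) g' h3)

/-- The multiplicities, in a form convenient for the proof. -/
def mult' (ε : Prop) [Decidable ε] (m i j : ℕ) : ℕ :=
  if i ≤ j ∧ i + j ≤ m then (if i < j ∧ ¬(i = 0 ∧ j = 1) then 2 else 1)
  else if i + j = m + 1 ∧ (i < j ∨ (i = j ∧ ε)) then 1 else 0

section index

variable (m : ℕ) (c : ℂ) (b : ℕ → ℕ → ℕ)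

/-- The index set of the summands. -/
abbrev Idx := Σ ij : Fin (m + 1 + 1) × Fin (m + 1 + 1), Fin (b ij.1 ij.2)

/-- The maps realizing the summands. -/
noncomputable def psiIdx (n : ℕ) (x : Idx m b) : PP n →ₗ[ℂ] PP n :=
  if (x.2 : ℕ) = 0 ∧ (x.1.1 : ℕ) + x.1.2 ≤ m then psi (eT univ m) (m - x.1.1 - x.1.2)
  else psi (ff n m c) (m + 1 - x.1.1 - x.1.2)

variable {m b}

lemma Idx.ext' {x y : Idx m b} (h1 : (x.1.1 : ℕ) = y.1.1) (h2 : (x.1.2 : ℕ) = y.1.2)
    (h3 : (x.2 : ℕ) = y.2) : x = y := by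
  obtain ⟨⟨i, j⟩, k⟩ := x
  obtain ⟨⟨i', j'⟩, k'⟩ := y
  obtain rfl : i = i' := Fin.ext h1
  obtain rfl : j = j' := Fin.ext h2
  obtain rfl : k = k' := Fin.ext h3
  rfl

open Classical in
lemma idx_cases (hm : 2 ≤ m) (hb : ∀ i j, b i j = mult' (c ≠ 0) m i j) (x : Idx m b) :
    ((x.2 : ℕ) = 0 ∧ (x.1.1 : ℕ) ≤ x.1.2 ∧ (x.1.1 : ℕ) + x.1.2 ≤ m ∧
      psiIdx m c b n x = psi (eT univ m) (m - x.1.1 - x.1.2)) ∨
    ((x.1.1 : ℕ) < x.1.2 ∧ 2 ≤ (x.1.2 : ℕ) ∧
      (((x.2 : ℕ) = 1 ∧ (x.1.1 : ℕ) + x.1.2 ≤ m) ∨ ((x.2 : ℕ) = 0 ∧ (x.1.1 : ℕ) + x.1.2 = m + 1)) ∧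
      psiIdx m c b n x = psi (ff n m c) (m + 1 - x.1.1 - x.1.2)) ∨
    ((x.2 : ℕ) = 0 ∧ (x.1.1 : ℕ) = x.1.2 ∧ (x.1.1 : ℕ) + x.1.2 = m + 1 ∧ c ≠ 0 ∧
      psiIdx m c b n x = psi (ff n m c) 0) := by
  have hx : (x.2 : ℕ) < mult' (c ≠ 0) m x.1.1 x.1.2 := hb _ _ ▸ x.2.2
  rw [psiIdx]
  rw [mult'] at hx
  by_cases h : (x.2 : ℕ) = 0 ∧ (x.1.1 : ℕ) + x.1.2 ≤ m
  · left
    rw [if_pos h]
    refine ⟨h.1, ?_, h.2, rfl⟩
    split_ifs at hx <;> omega
  · right
    rw [if_neg h]
    split_ifs at hx with h1 h2 h3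
    · left
      exact ⟨by omega, by omega, by omega, rfl⟩
    · omega
    · rcases h3.2 with h4 | h4
      · left
        exact ⟨by omega, by omega, by omega, rfl⟩
      · right
        have : m + 1 - x.1.1 - x.1.2 = 0 := by omega
        exact ⟨by omega, h4.1, h3.1, h4.2, by rw [this]⟩
    · omega

lemma psiIdx_rename (x : Idx m b) (σ : Equiv.Perm (Fin n)) (s : PP n) :
    psiIdx m c b n x (rename σ s) = rename σ (psiIdx m c b n x s) := by
  rw [psiIdx]
  split_ifs
  · exact psi_rename σ (rename_eT_univ σ m) _ _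
  · exact psi_rename σ (rename_ff σ m c) _ _

open Classical in
lemma psiIdx_isHomogeneous (hm : 2 ≤ m) (hb : ∀ i j, b i j = mult' (c ≠ 0) m i j) (x : Idx m b) :
    ∀ s ∈ specht n x.1.1, (psiIdx m c b n x s).IsHomogeneous x.1.2 := by
  intro s hs
  rcases idx_cases (n := n) c hm hb x with ⟨-, h1, h2, h⟩ | ⟨h1, -, h2, h⟩ | ⟨-, h1, h2, -, h⟩
  · rw [h]
    convert psi_isHomogeneous (eT_isHomogeneous univ m) (m - x.1.1 - x.1.2) hs using 1
    omega
  · rw [h]
    convert psi_isHomogeneous (ff_isHomogeneous m c) (m + 1 - x.1.1 - x.1.2) hs using 1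
    omega
  · rw [h]
    convert psi_isHomogeneous (ff_isHomogeneous m c) 0 hs using 1
    omega

open Classical in
theorem psiIdx_independent (hm : 2 ≤ m) (hn : m + 1 ≤ n) (hb : ∀ i j, b i j = mult' (c ≠ 0) m i j)
    (s : Idx m b → PP n) (hs : ∀ x, s x ∈ specht n x.1.1)
    (hsum : ∑ x, psiIdx m c b n x (s x) = 0) : ∀ x, s x = 0 := by
  have hdeg : ∀ j : ℕ, ∑ x, (if (x.1.2 : ℕ) = j then psiIdx m c b n x (s x) else 0) = 0 := by
    intro j
    have := congrArg (homogeneousComponent j) hsum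
    rw [map_sum, map_zero] at this
    refine Eq.trans (sum_congr rfl fun x _ => ?_) this
    rw [homogeneousComponent_of_mem (psiIdx_isHomogeneous c hm hb x _ (hs x))]
    simp only [eq_comm]
  have step1 : ∀ x : Idx m b, (x.1.1 : ℕ) < x.1.2 → 2 ≤ (x.1.2 : ℕ) →
      (x.1.1 : ℕ) + x.1.2 ≤ m + 1 →
      psiIdx m c b n x = psi (ff n m c) (m + 1 - x.1.1 - x.1.2) → s x = 0 := by
    have key : ∀ x : Idx m b, (x.1.1 : ℕ) < x.1.2 → 2 ≤ (x.1.2 : ℕ) →
        (x.1.1 : ℕ) + x.1.2 ≤ m + 1 →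
        psiIdx m c b n x = psi (ff n m c) (m + 1 - x.1.1 - x.1.2) →
        dop n (e1 n ^ ((x.1.2 : ℕ) - x.1.1 - 1)) (E2 n (psiIdx m c b n x (s x))) = 0 →
        s x = 0 := by
      intro x h1 h2 h3 h h0
      rw [h, E2_psi_ff m c _ (hs x), map_smul, dop_pow_psi, psi_eT_eq_smul (by omega) (hs x),
        smul_smul, smul_eq_zero] at h0
      refine h0.resolve_left (mul_ne_zero (Nat.cast_ne_zero.mpr (by omega))
        (sign_kap_ne_zero _ (by omega) _))
    intro x₀ h1 h2 h3 h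
    have hreg : ∀ x : Idx m b,
        (if (x.1.2 : ℕ) = x₀.1.2 then E2 n (psiIdx m c b n x (s x)) else 0) ≠ 0 →
        (x.1.2 : ℕ) = x₀.1.2 ∧ (x.1.1 : ℕ) < x.1.2 ∧ 2 ≤ (x.1.2 : ℕ) ∧
        (((x.2 : ℕ) = 1 ∧ (x.1.1 : ℕ) + x.1.2 ≤ m) ∨
          ((x.2 : ℕ) = 0 ∧ (x.1.1 : ℕ) + x.1.2 = m + 1)) ∧
        psiIdx m c b n x = psi (ff n m c) (m + 1 - x.1.1 - x.1.2) := by
      intro x hx
      split_ifs at hx with hj
      · rcases idx_cases (n := n) c hm hb x with ⟨-, -, -, h⟩ | h | ⟨-, h1, h2, -, h⟩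
        · rw [h, E2_psi_eT] at hx
          exact absurd rfl hx
        · exact ⟨hj, h⟩
        · rw [h, E2_psi_ff m c _ (hs x), psi_eT_eq_zero (by omega) (hs x), smul_zero] at hx
          exact absurd rfl hx
      · exact absurd rfl hx
    have tri := triangular
      (fun x : Idx m b => if (x.1.2 : ℕ) = x₀.1.2 then E2 n (psiIdx m c b n x (s x)) else 0)
      (fun x => (x.1.2 : ℕ) - x.1.1 - 1) ?_ ?_ ?_ ?_ x₀
    · rw [if_pos rfl] at tri
      exact key x₀ h1 h2 h3 h (by rw [tri, map_zero])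
    · intro x y hx hy hr
      obtain ⟨a1, a2, a3, a4, -⟩ := hreg x hx
      obtain ⟨b1, b2, b3, b4, -⟩ := hreg y hy
      exact Idx.ext' (by omega) (by omega) (by omega)
    · intro x
      by_cases hx : (if (x.1.2 : ℕ) = x₀.1.2 then E2 n (psiIdx m c b n x (s x)) else 0) = 0
      · rw [hx, map_zero]
      · obtain ⟨a1, a2, a3, a4, a5⟩ := hreg x hx
        rw [if_pos a1, a5, E2_psi_ff m c _ (hs x), map_smul, dop_pow_psi,
          psi_eT_eq_zero (by omega) (hs x), smul_zero]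
    · intro x h0
      by_contra hx
      obtain ⟨a1, a2, a3, a4, a5⟩ := hreg x hx
      rw [if_pos a1] at h0 hx
      exact hx (by rw [key x a2 a3 (by omega) a5 h0, map_zero, map_zero])
    · have := congrArg (E2 n) (hdeg x₀.1.2)
      rw [map_sum, map_zero] at this
      exact Eq.trans (sum_congr rfl fun x _ => by split_ifs <;> simp) this
  have key : ∀ x : Idx m b,
      dop n (e1 n ^ ((x.1.2 : ℕ) - x.1.1)) (psiIdx m c b n x (s x)) = 0 → s x = 0 := by
    intro x h0
    rcases idx_cases (n := n) c hm hb x with ⟨-, h1, h2, h⟩ | ⟨h1, h2, h3, h⟩ | ⟨-, h1, h2, hc, h⟩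
    · rw [h, dop_pow_psi, psi_eT_eq_smul (by omega) (hs x), smul_eq_zero] at h0
      exact h0.resolve_left (sign_kap_ne_zero _ (by omega) _)
    · exact step1 x h1 h2 (by omega) h
    · have : (x.1.2 : ℕ) - x.1.1 = 0 := by omega
      rw [h, dop_pow_psi, this, add_zero, psi_ff_special c (by omega) (hs x), smul_eq_zero] at h0
      exact h0.resolve_left (mul_ne_zero (neg_ne_zero.mpr hc) (sign_kap_ne_zero _ hn _))
  intro x₀
  have hreg : ∀ x : Idx m b,
      (if (x.1.2 : ℕ) = x₀.1.2 then psiIdx m c b n x (s x) else 0) ≠ 0 →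
      (x.1.2 : ℕ) = x₀.1.2 ∧ (x.2 : ℕ) = 0 ∧ (x.1.1 : ℕ) ≤ x.1.2 ∧
      dop n (e1 n ^ ((x.1.2 : ℕ) - x.1.1 + 1)) (psiIdx m c b n x (s x)) = 0 := by
    intro x hx
    split_ifs at hx with hj
    · rcases idx_cases (n := n) c hm hb x with ⟨h0, h1, h2, h⟩ | ⟨h1, h2, h3, h⟩ |
        ⟨h0, h1, h2, -, h⟩
      · exact ⟨hj, h0, h1, by rw [h, dop_pow_psi, psi_eT_eq_zero (by omega) (hs x)]⟩
      · rw [step1 x h1 h2 (by omega) h, map_zero] at hx
        exact absurd rfl hx
      · exact ⟨hj, h0, h1.le, by rw [h, dop_pow_psi, psi_ff_eq_zero c (by omega) (hs x)]⟩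
    · exact absurd rfl hx
  have tri := triangular
    (fun x : Idx m b => if (x.1.2 : ℕ) = x₀.1.2 then psiIdx m c b n x (s x) else 0)
    (fun x => (x.1.2 : ℕ) - x.1.1) ?_ ?_ ?_ (hdeg _) x₀
  · rw [if_pos rfl] at tri
    exact key x₀ (by rw [tri, map_zero])
  · intro x y hx hy hr
    obtain ⟨a1, a2, a3, -⟩ := hreg x hx
    obtain ⟨b1, b2, b3, -⟩ := hreg y hy
    exact Idx.ext' (by omega) (by omega) (by omega)
  · intro x
    by_cases hx : (if (x.1.2 : ℕ) = x₀.1.2 then psiIdx m c b n x (s x) else 0) = 0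
    · rw [hx, map_zero]
    · obtain ⟨a1, -, -, a4⟩ := hreg x hx
      rw [if_pos a1, a4]
  · intro x h0
    by_contra hx
    obtain ⟨a1, -, -, -⟩ := hreg x hx
    rw [if_pos a1] at h0 hx
    exact hx (by rw [key x h0, map_zero])

open Classical in
theorem UU_eq_iSup (hm : 2 ≤ m) (hn : m + 1 ≤ n) (hb : ∀ i j, b i j = mult' (c ≠ 0) m i j) :
    UU n m c = ⨆ x : Idx m b, (specht n x.1.1).map (psiIdx m c b n x) := by
  set V := ⨆ x : Idx m b, (specht n x.1.1).map (psiIdx m c b n x) with hV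
  have hmemV : ∀ (i j k : ℕ) (hi : i < m + 1 + 1) (hj : j < m + 1 + 1) (hk : k < b i j)
      (s : PP n), s ∈ specht n i → psiIdx m c b n ⟨(⟨i, hi⟩, ⟨j, hj⟩), ⟨k, hk⟩⟩ s ∈ V :=
    fun i j k hi hj hk s hs =>
      Submodule.mem_iSup_of_mem (⟨(⟨i, hi⟩, ⟨j, hj⟩), ⟨k, hk⟩⟩ : Idx m b)
        (Submodule.mem_map_of_mem hs)
  have hA : ∀ g, dop n g (eT univ m) ∈ V := by
    refine mem_of_sq_of_delta (W := V.comap (dopAt (eT univ m))) (fun j g => ?_)
      (fun t i T p h => ?_)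
    · rw [Submodule.mem_comap, dopAt_apply, ← mul_assoc, dop_mul_X, dop_mul_X, pderiv_pderiv_eT,
        map_zero]
      exact V.zero_mem
    · change psi (eT univ m) t p ∈ V
      by_cases ht : t + 2 * i ≤ m
      · have := hmemV i (m - i - t) 0 (by omega) (by omega) (by
          rw [hb, mult', if_pos (by omega)]; split_ifs <;> omega) p h.mem_specht
        rw [psiIdx, if_pos ⟨rfl, by dsimp only; omega⟩] at this
        have e : m - i - (m - i - t) = t := by omega
        simpa only [e] using this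
      · rw [psi_eT_eq_zero (by omega) h.mem_specht]
        exact V.zero_mem
  have hB : ∀ g, dop n g (ff n m c) ∈ V := by
    refine mem_of_sq_of_delta (W := V.comap (dopAt (ff n m c))) (fun j g => ?_)
      (fun t i T p h => ?_)
    · rw [Submodule.mem_comap, dopAt_apply, ← mul_assoc, dop_mul_X, dop_mul_X, pderiv_pderiv_ff,
        map_smul, ← dop_mul_X]
      exact V.smul_mem _ (hA _)
    · change psi (ff n m c) t p ∈ V
      have hs := h.mem_specht
      by_cases h1 : m + 1 < t + 2 * i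
      · rw [psi_ff_eq_zero c h1 hs]
        exact V.zero_mem
      cases t with
      | zero =>
        by_cases hc : 2 * i = m + 1 ∧ c = 0
        · rw [psi_ff_special c hc.1 hs, hc.2]
          simp
        · have := hmemV i (m + 1 - i) 0 (by omega) (by omega) (by
            rw [hb, mult', if_neg (by omega), if_pos]
            · exact one_pos
            · refine ⟨by omega, ?_⟩
              by_cases h2 : 2 * i = m + 1
              · exact Or.inr ⟨by omega, fun h => hc ⟨h2, h⟩⟩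
              · left; omega) p hs
          rw [psiIdx, if_neg (by dsimp only; omega)] at this
          have e : m + 1 - i - (m + 1 - i) = 0 := by omega
          simpa only [e] using this
      | succ t =>
        by_cases h2 : t + 2 * i = m
        · have hp : p ∈ V := by
            have := hA (e1 n ^ t * p)
            rw [← psi_apply, psi_eT_eq_smul h2 hs] at this
            exact (V.smul_mem_iff (sign_kap_ne_zero _ (by omega) _)).mp this
          rw [h.dop_ff_succ, psi_eT_eq_zero (by omega) hs, mul_zero, zero_add,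
            psi_eT_eq_smul (k := m + 1) (by omega) hs]
          exact V.sub_mem (V.smul_mem _ (hA _)) (V.smul_mem _ (V.smul_mem _ hp))
        by_cases h3 : i = 0 ∧ t + 1 = m
        · obtain ⟨rfl, rfl⟩ := h3
          cases h
          have he : eT univ 1 = e1 n := esymm_one (Fin n) ℂ
          have hp : e1 n ∈ V := by
            have := hA (e1 n ^ t * 1)
            rw [IsDelta.zero.dop_pow_eT, if_pos (by omega)] at this
            have e : t + 1 - 2 * 0 - t = 1 := by omega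
            rw [e, one_mul, he] at this
            exact (V.smul_mem_iff (sign_kap_ne_zero _ (by omega) _)).mp this
          have e : t + 1 + 1 - 2 * 0 - (t + 1) = 1 := by omega
          rw [IsDelta.zero.dop_ff_succ, psi_eT_eq_smul (by omega) hs, psi_apply (eT univ (t + 1 + 1)),
            IsDelta.zero.dop_pow_eT, if_pos (by omega), e, one_mul, he, mul_smul_comm, mul_one]
          exact V.sub_mem (V.add_mem (V.smul_mem _ hp) (V.smul_mem _ (hA _)))
            (V.smul_mem _ (V.smul_mem _ hp))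
        · have := hmemV i (m - i - t) 1 (by omega) (by omega) (by
            rw [hb, mult', if_pos (by omega), if_pos (by omega)]; exact one_lt_two) p hs
          rw [psiIdx, if_neg (by simp)] at this
          have e : m + 1 - i - (m - i - t) = t + 1 := by omega
          simpa only [e] using this
  apply le_antisymm
  · intro u hu
    obtain ⟨g, g', rfl⟩ := mem_UU.mp hu
    exact V.add_mem (hB g) (hA g')
  · refine iSup_le fun x => ?_
    rintro _ ⟨s, -, rfl⟩
    rw [psiIdx]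
    split_ifs
    · exact Submodule.mem_sup_right ⟨_, rfl⟩
    · exact Submodule.mem_sup_left ⟨_, rfl⟩

end index

end Pool.Agent.MP_30ddb3_co
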