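import Mathlib
import Pool.Agent.MP_30ddb3_co.OneRow

/-!
The identity `m_{(2,1^{m-1})} = e₁ e_m - (m + 1) e_{m+1}`.
-/

namespace Pool.Agent.MP_30ddb3_co

open MvPolynomial Finset

variable {n : ℕ}

lemma e1_mul_eT (m : ℕ) : e1 n * eT univ m
    = ∑ a, ∑ T ∈ (powersetCard m univ).filter (fun T => a ∈ T), X a * ∏ j ∈ T, X j
      + ((m + 1 : ℕ) : ℂ) • eT univ (m + 1) := by
  rw [Nat.cast_smul_eq_nsmul, ← (eT_isHomogeneous univ (m + 1)).sum_X_mul_pderiv,
    ← sum_add_distrib, e1, sum_mul]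
  refine sum_congr rfl fun a _ => ?_
  have h : powersetCard m (univ.erase a) = (powersetCard m univ).filter (fun T => ¬ a ∈ T) := by
    ext T
    simp [mem_powersetCard, subset_erase, and_comm]
  rw [pderiv_eT_of_mem (mem_univ a), eT, eT, h, mul_sum, mul_sum,
    sum_filter_add_sum_filter_not]

lemma ofSym_parts_cons {m : ℕ} {a : Fin n} {T : Finset (Fin n)} (ha : a ∈ T) (hT : T.card = m) :
    (a ::ₘ T.val).dedup.map (a ::ₘ T.val).count = 2 ::ₘ Multiset.replicate (m - 1) 1 := by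
  rw [Multiset.dedup_cons_of_mem ha, T.nodup.dedup]
  rw [← Multiset.map_eq_cons]
  refine ⟨a, ha, ?_, ?_⟩
  · rw [Multiset.count_cons_self, Multiset.count_eq_one_of_mem T.nodup ha]
  · rw [Multiset.eq_replicate]
    refine ⟨by rw [Multiset.card_map, Multiset.card_erase_of_mem ha]; simp [hT], ?_⟩
    intro k hk
    obtain ⟨x, hx, rfl⟩ := Multiset.mem_map.mp hk
    rw [T.nodup.mem_erase_iff] at hx
    rw [Multiset.count_cons_of_ne hx.1, Multiset.count_eq_one_of_mem T.nodup hx.2]

lemma msymm_eq_ff {m : ℕ} (μ : (m + 1).Partition)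
    (hμ : μ.parts = 2 ::ₘ Multiset.replicate (m - 1) 1) :
    msymm (Fin n) ℂ μ = ff n m ((m + 1 : ℕ) : ℂ) := by
  rw [ff, e1_mul_eT, add_sub_cancel_right, msymm, sum_sigma']
  symm
  refine sum_bij (fun y hy => ⟨⟨y.1 ::ₘ y.2.val, ?_⟩, ?_⟩) (fun _ _ => mem_univ _) ?_ ?_ ?_
  · simp only [mem_sigma, mem_filter, mem_powersetCard] at hy
    simp [hy.2.1.2]
  · simp only [mem_sigma, mem_filter, mem_powersetCard] at hy
    ext1
    rw [hμ]
    exact ofSym_parts_cons hy.2.2 hy.2.1.2
  · rintro ⟨a, T⟩ hy ⟨a', T'⟩ hy' h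
    simp only [mem_sigma, mem_filter, mem_powersetCard] at hy hy'
    have h1 : a ::ₘ T.val = a' ::ₘ T'.val := congrArg (fun s => s.1.1) h
    have h2 : T = T' := by
      have := congrArg Multiset.dedup h1
      rw [Multiset.dedup_cons_of_mem hy.2.2, Multiset.dedup_cons_of_mem hy'.2.2, T.nodup.dedup,
        T'.nodup.dedup] at this
      exact val_injective this
    subst h2
    obtain rfl : a = a' := (Multiset.cons_inj_left _).mp h1
    rfl
  · rintro ⟨⟨s, hs⟩, hsμ⟩ -
    have h1 : s.dedup.map s.count = 2 ::ₘ Multiset.replicate (m - 1) 1 := by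
      rw [← hμ, ← hsμ]; rfl
    obtain ⟨a, ha, ha2, hrest⟩ := (Multiset.map_eq_cons _ _ _ _).mpr h1
    have h2 : s = a ::ₘ s.dedup := by
      ext x
      by_cases hx : x = a
      · rw [hx, ha2, Multiset.count_cons_self, Multiset.count_eq_one_of_mem s.nodup_dedup ha]
      · rw [Multiset.count_cons_of_ne hx]
        by_cases hxs : x ∈ s
        · have h3 : x ∈ s.dedup.erase a :=
            s.nodup_dedup.mem_erase_iff.mpr ⟨hx, Multiset.mem_dedup.mpr hxs⟩
          have h4 := Multiset.mem_map_of_mem s.count h3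
          rw [hrest] at h4
          rw [Multiset.eq_of_mem_replicate h4,
            Multiset.count_eq_one_of_mem s.nodup_dedup (Multiset.mem_dedup.mpr hxs)]
        · rw [Multiset.count_eq_zero_of_notMem hxs,
            Multiset.count_eq_zero_of_notMem (fun h => hxs (Multiset.mem_dedup.mp h))]
    refine ⟨⟨a, s.toFinset⟩, ?_, Subtype.ext (Subtype.ext h2.symm)⟩
    simp only [mem_sigma, mem_filter, mem_powersetCard, mem_univ, subset_univ, true_and]
    refine ⟨?_, ha⟩
    have h3 := congrArg Multiset.card h2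
    rw [Multiset.card_cons, hs] at h3
    change s.dedup.card = m
    omega
  · rintro ⟨a, T⟩ _
    simp only [Multiset.map_cons, Multiset.prod_cons]
    rfl

lemma esymm_mul_eq_ff (m : ℕ) : esymm (Fin n) ℂ m * esymm (Fin n) ℂ 1 = ff n m 0 := by
  rw [ff, zero_smul, sub_zero, esymm_one, mul_comm]
  rfl

end Pool.Agent.MP_30ddb3_co
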