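import Mathlib
import Pool.Agent.MP_30ddb3_co.Assembly
import Pool.Agent.MP_30ddb3_co.Msymm

/-!
The decomposition of the polarization modules of `m_{(2,1^{d-2})}` and `e_{d-1} e₁`.
-/

namespace Pool.Agent.MP_30ddb3_co

open MvPolynomial Finset TensorProduct DirectSum

variable {n l : ℕ}

open Classical in
theorem polModule_ff_equiv [NeZero l] {m : ℕ} (hm : 2 ≤ m) (hn : m + 1 ≤ n) (c : ℂ)
    (b : ℕ → ℕ → ℕ) (hb : ∀ i j, b i j = mult' (c ≠ 0) m i j) (M : Submodule ℂ (RR n l))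
    (hM : M = polModule (rename (fun j => ((0 : Fin l), j)) (ff n m c))) :
    ∃ h : ∀ g, M ≤ M.comap (rhoX n l g),
      Nonempty (((rhoX n l).subrepresentation M h).Equiv (modelRep n l (m + 1) b)) := by
  rw [polModule_ff (by omega)] at hM
  refine ⟨fun g => hM ▸ polSpan_stable (UU_rename m c) g, ?_⟩
  exact nonempty_equiv_model (fun x : Idx m b => (x.1.1 : ℕ)) (fun x : Idx m b => (x.1.2 : ℕ))
    (psiIdx m c b n) (psiIdx_rename c) (psiIdx_isHomogeneous c hm hb)
    (psiIdx_independent c hm hn hb) M (by rw [hM, UU_eq_iSup c hm hn hb]) _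

lemma mult_eq {m : ℕ} (hm : 2 ≤ m) (ε : Prop) [Decidable ε] (hε : ε ∨ Odd (m + 1)) (i j : ℕ) :
    mult (m + 1) i j = mult' ε m i j := by
  rw [mult, mult']
  rcases hε with hε | ⟨k, hk⟩
  · simp only [hε, and_true]
    split_ifs <;> omega
  · by_cases hε : ε
    · simp only [hε, and_true]
      split_ifs <;> omega
    · simp only [hε, and_false, or_false]
      split_ifs <;> omega

theorem msymm_equiv [NeZero l] {d : ℕ} (hd : 3 ≤ d) (hn : d ≤ n) (μ : d.Partition)
    (hμ : μ.parts = 2 ::ₘ Multiset.replicate (d - 2) 1) (M : Submodule ℂ (RR n l))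
    (hM : M = polModule (rename (fun j => ((0 : Fin l), j)) (msymm (Fin n) ℂ μ))) :
    ∃ h : ∀ g, M ≤ M.comap (rhoX n l g),
      Nonempty (((rhoX n l).subrepresentation M h).Equiv (modelRep n l d (mult d))) := by
  classical
  obtain ⟨m, rfl⟩ : ∃ m, d = m + 1 := ⟨d - 1, by omega⟩
  rw [msymm_eq_ff μ hμ] at hM
  exact polModule_ff_equiv (by omega) hn _ _
    (mult_eq (by omega) _ (Or.inl (Nat.cast_ne_zero.mpr (Nat.succ_ne_zero m)))) M hM

instance finite_homog (σ : Type*) [Finite σ] (j : ℕ) :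
    Module.Finite ℂ (homogeneousSubmodule σ ℂ j) :=
  Module.Finite.iff_fg.mpr (homogeneousSubmodule_fg σ ℂ j)

instance finite_specht (n i : ℕ) : Module.Finite ℂ (specht n i) :=
  Submodule.finiteDimensional_of_le (S₂ := homogeneousSubmodule (Fin n) ℂ i)
    fun _ hs => specht_isHomogeneous hs

lemma finrank_model (d : ℕ) (b : ℕ → ℕ → ℕ) :
    Module.finrank ℂ (⨁ x : (Σ ij : Fin (d + 1) × Fin (d + 1), Fin (b ij.1 ij.2)),
      homogeneousSubmodule (Fin l) ℂ x.1.2 ⊗[ℂ] specht n x.1.1)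
    = ∑ ij : Fin (d + 1) × Fin (d + 1), b ij.1 ij.2 *
      (Module.finrank ℂ (homogeneousSubmodule (Fin l) ℂ ij.2) *
        Module.finrank ℂ (specht n ij.1)) := by
  rw [Module.finrank_directSum, Fintype.sum_sigma]
  refine sum_congr rfl fun ij _ => ?_
  rw [sum_eq_card_nsmul (b := Module.finrank ℂ (homogeneousSubmodule (Fin l) ℂ ij.2) *
    Module.finrank ℂ (specht n ij.1)) (fun y _ => Module.finrank_tensorProduct), card_univ,
    Fintype.card_fin, smul_eq_mul]

lemma exists_isDelta_of_le (i : ℕ) (hi : 2 * i ≤ n) : ∃ T p, IsDelta (n := n) i T p := by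
  induction i with
  | zero => exact ⟨_, _, IsDelta.zero⟩
  | succ i ih =>
    obtain ⟨T, p, h⟩ := ih (by omega)
    have := h.card
    obtain ⟨a, ha, b, hb, hab⟩ := one_lt_card.mp (by omega : 1 < T.card)
    exact ⟨_, _, h.succ ha hb hab⟩

theorem msymm_esymm_iff [NeZero l] {d : ℕ} (hd : 3 ≤ d) (hn : d ≤ n) (μ : d.Partition)
    (hμ : μ.parts = 2 ::ₘ Multiset.replicate (d - 2) 1) (M N : Submodule ℂ (RR n l))
    (hM : M = polModule (rename (fun j => ((0 : Fin l), j)) (msymm (Fin n) ℂ μ)))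
    (hN : N = polModule (rename (fun j => ((0 : Fin l), j))
      (esymm (Fin n) ℂ (d - 1) * esymm (Fin n) ℂ 1))) :
    ∃ (h : ∀ g, M ≤ M.comap (rhoX n l g)) (h' : ∀ g, N ≤ N.comap (rhoX n l g)),
      (Nonempty (((rhoX n l).subrepresentation M h).Equiv ((rhoX n l).subrepresentation N h'))
        ↔ Odd d) := by
  classical
  obtain ⟨h, ⟨e⟩⟩ := msymm_equiv hd hn μ hμ M hM
  obtain ⟨m, rfl⟩ : ∃ m, d = m + 1 := ⟨d - 1, by omega⟩
  rw [Nat.add_sub_cancel, esymm_mul_eq_ff] at hN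
  obtain ⟨h', ⟨e'⟩⟩ := polModule_ff_equiv (by omega) hn 0 _ (fun _ _ => rfl) N hN
  refine ⟨h, h', fun ⟨φ⟩ => ?_, fun hodd => ?_⟩
  · by_contra hodd
    obtain ⟨k, hk⟩ := Nat.not_odd_iff_even.mp hodd
    have h1 := ((e.symm.trans φ).trans e').toLinearEquiv.finrank_eq
    rw [finrank_model, finrank_model] at h1
    refine absurd h1 (ne_of_gt (sum_lt_sum (fun ij _ => Nat.mul_le_mul_right _ ?_)
      ⟨(⟨k, by omega⟩, ⟨k, by omega⟩), mem_univ _, Nat.mul_lt_mul_of_pos_right ?_ ?_⟩))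
    · rw [mult_eq (by omega) True (Or.inl trivial), mult', mult']
      simp only [ne_eq, not_true_eq_false, and_false, or_false, and_true]
      split_ifs <;> omega
    · dsimp only
      rw [mult_eq (by omega) True (Or.inl trivial), mult', mult', if_neg (by omega),
        if_neg (by simp), if_neg (by omega), if_pos ⟨hk.symm, Or.inr ⟨rfl, trivial⟩⟩]
      exact one_pos
    · refine Nat.mul_pos ?_ ?_
      · rw [Module.finrank_pos_iff_exists_ne_zero]
        exact ⟨⟨X 0 ^ k, isHomogeneous_X_pow _ _⟩,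
          fun h => pow_ne_zero k (X_ne_zero (R := ℂ) (0 : Fin l)) (congrArg Subtype.val h)⟩
      · obtain ⟨T, p, hp⟩ := exists_isDelta_of_le (n := n) k (by omega)
        rw [Module.finrank_pos_iff_exists_ne_zero]
        exact ⟨⟨p, hp.mem_specht⟩, fun h => hp.ne_zero (congrArg Subtype.val h)⟩
  · obtain ⟨_, ⟨e''⟩⟩ := polModule_ff_equiv (by omega) hn 0 _
      (mult_eq (by omega) _ (Or.inr hodd)) N hN
    exact ⟨e.trans e''.symm⟩

end Pool.Agent.MP_30ddb3_co
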